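import Pool.Agent.Helper20.HP.Man
import Pool.Agent.Helper20.PC.Curv
import Pool.Agent.Helper20.HPF.R1
import Pool.Agent.Helper28.HP.BR1
import Pool.Agent.Helper20.PC.MixSphere

/-!
# From local submersions to Riemannian metrics of positive curvature on a manifold
-/

open Filter Metric Module Set
open scoped Topology ContDiff RealInnerProductSpace Manifold

set_option maxSynthPendingDepth 3

namespace Pool.Agent.Helper20.MB
open Pool.Agent.Helper20.PC Pool.Agent.Helper20.HP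

section
variable {E : Type*} [NormedAddCommGroup E] [NormedSpace ℝ E] [FiniteDimensional ℝ E]
  {H : Type*} [TopologicalSpace H] {I : ModelWithCorners ℝ E H} [I.Boundaryless]
  {M : Type*} [TopologicalSpace M] [ChartedSpace H M] [IsManifold I ∞ M]
  {F : Type*} [NormedAddCommGroup F] [NormedSpace ℝ F] [FiniteDimensional ℝ F]

/-- the Gram determinant is positive. -/
lemma gram_pos {G : F → F →L[ℝ] F →L[ℝ] ℝ} {z : F} (h : MetAt G z) {u v : F}
    (huv : LinearIndependent ℝ ![u, v]) :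
    0 < G z u u * G z v v - G z u v ^ 2 := by
  have hpos := h.pos.self_of_nhds
  have hsym := h.symm.self_of_nhds
  have hv : v ≠ 0 := huv.ne_zero 1
  have hvv := hpos v hv
  have hne : u + (-(G z u v) / G z v v) • v ≠ 0 := by
    intro h0
    have := (LinearIndependent.pair_iff.1 huv) 1 (-(G z u v) / G z v v) (by rw [one_smul]; exact h0)
    exact one_ne_zero this.1
  have h1 := hpos _ hne
  have e : G z (u + (-(G z u v) / G z v v) • v) (u + (-(G z u v) / G z v v) • v)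
      = (G z u u * G z v v - G z u v ^ 2) / G z v v := by
    simp only [map_add, map_smul, _root_.add_apply, _root_.smul_apply, smul_eq_mul]
    rw [hsym v u]
    field_simp
    ring
  rw [e] at h1
  exact (div_pos_iff_of_pos_right hvv).1 h1

lemma secCurv_pos {G : F → F →L[ℝ] F →L[ℝ] ℝ} {z : F} (h : MetAt G z) {u v : F}
    (huv : LinearIndependent ℝ ![u, v]) (hn : 0 < num G z u v) : 0 < secCurv G z u v := by
  rw [secCurv, G_Riem h]
  exact div_pos hn (gram_pos h huv)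

/-- Local data at the point `p`: a submersion `φ` from a neighbourhood of `ψ p` in the vector space
`F`, with a local section `ψ`, and a metric `G` of `F` which is the sum of the pullback of `inner`
and of the square of a closed one-form `β`. -/
structure LocPos (I : ModelWithCorners ℝ E H)
    (inner : ∀ p : M, TangentSpace I p →L[ℝ] TangentSpace I p →L[ℝ] ℝ) (p : M)
    (φ : F → M) (ψ : M → F) (G : F → F →L[ℝ] F →L[ℝ] ℝ) (β : F → F →L[ℝ] ℝ) : Prop where
  hφ : ContMDiffAt 𝓘(ℝ, F) I ∞ φ (ψ p)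
  hψ : ContMDiffAt I 𝓘(ℝ, F) ∞ ψ p
  inv : ∀ᶠ q in 𝓝 p, φ (ψ q) = q
  hG : ContDiffAt ℝ ∞ G (ψ p)
  hs : ∀ᶠ z in 𝓝 (ψ p), ∀ a b, G z a b = G z b a
  hp : ∀ᶠ z in 𝓝 (ψ p), ∀ a, a ≠ 0 → 0 < G z a a
  hβ : ContDiffAt ℝ ∞ β (ψ p)
  closed : ∀ a b, fderiv ℝ β (ψ p) a b = fderiv ℝ β (ψ p) b a
  eq : ∀ᶠ w in 𝓝 (ψ p), ∀ a b : F, G w a b
    = inner (φ w) (mfderiv 𝓘(ℝ, F) I φ w a) (mfderiv 𝓘(ℝ, F) I φ w b) + β w a * β w b
  rad : ∃ a : F, mfderiv 𝓘(ℝ, F) I φ (ψ p) a = 0 ∧ β (ψ p) a ≠ 0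
  pos : ∀ u v, β (ψ p) u = 0 → β (ψ p) v = 0 → LinearIndependent ℝ ![u, v] → 0 < num G (ψ p) u v

variable {inner : ∀ p : M, TangentSpace I p →L[ℝ] TangentSpace I p →L[ℝ] ℝ} {p : M}
    {φ : F → M} {ψ : M → F} {G : F → F →L[ℝ] F →L[ℝ] ℝ} {β : F → F →L[ℝ] ℝ}

/-- the metric of `M` in the coordinates `ψ`. -/
noncomputable def redG (G : F → F →L[ℝ] F →L[ℝ] ℝ) (β : F → F →L[ℝ] ℝ) (w : F) : F →L[ℝ] F →L[ℝ] ℝ :=
  G w - (β w).smulRight (β w)

omit [FiniteDimensional ℝ F] in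
lemma redG_apply (w a b : F) : redG G β w a b = G w a b - β w a * β w b := by
  simp [redG]

lemma inner_congr (inner : ∀ p : M, TangentSpace I p →L[ℝ] TangentSpace I p →L[ℝ] ℝ) {q q' : M}
    (h : q' = q) (u v : E) : inner q' u v = inner q u v := by
  subst h; rfl

omit [FiniteDimensional ℝ E] [I.Boundaryless] [FiniteDimensional ℝ F] in
lemma three_le : (3 : WithTop ℕ∞) ≤ ∞ := WithTop.coe_le_coe.2 le_top

omit [FiniteDimensional ℝ E] [FiniteDimensional ℝ F] [I.Boundaryless] in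
lemma LocPos.fφ (h : LocPos I inner p φ ψ G β) :
    ∀ᶠ w in 𝓝 (ψ p), ContMDiffAt 𝓘(ℝ, F) I 3 φ w := by
  have : IsManifold I 3 M := IsManifold.of_le (n := ∞) (WithTop.coe_le_coe.2 le_top)
  exact (contMDiffAt_iff_contMDiffAt_nhds (by simp)).1 (h.hφ.of_le (WithTop.coe_le_coe.2 le_top))

lemma LocPos.fψ (h : LocPos I inner p φ ψ G β) :
    ∀ᶠ q in 𝓝 p, ContMDiffAt I 𝓘(ℝ, F) 3 ψ q := by
  have : IsManifold I 3 M := IsManifold.of_le (n := ∞) (WithTop.coe_le_coe.2 le_top)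
  exact (contMDiffAt_iff_contMDiffAt_nhds (by simp)).1 (h.hψ.of_le (WithTop.coe_le_coe.2 le_top))

/-- `dφ ∘ dψ = id` near `p`. -/
lemma LocPos.comp (h : LocPos I inner p φ ψ G β) :
    ∀ᶠ q in 𝓝 p, ∀ u : E, mfderiv 𝓘(ℝ, F) I φ (ψ q) (mfderiv I 𝓘(ℝ, F) ψ q u : F) = u := by
  filter_upwards [h.fψ, h.hψ.continuousAt.eventually h.fφ, h.inv.eventually_nhds] with q h1 h2 h3 u
  have e1 : (φ ∘ ψ) =ᶠ[𝓝 q] id := h3
  have e2 := mfderiv_comp (I := I) (I' := 𝓘(ℝ, F)) (I'' := I) q (h2.mdifferentiableAt (by norm_num))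
    (h1.mdifferentiableAt (by norm_num))
  have e3 : mfderiv I I (φ ∘ ψ) q = mfderiv I I id q := e1.mfderiv_eq
  rw [e3] at e2
  have e4 := DFunLike.congr_fun e2 u
  rw [mfderiv_id] at e4
  exact e4.symm

/-- the metric near `p` in terms of the local data. -/
lemma LocPos.inner_eq (h : LocPos I inner p φ ψ G β) :
    ∀ᶠ q in 𝓝 p, ∀ u v : E, inner q u v
      = redG G β (ψ q) (mfderiv I 𝓘(ℝ, F) ψ q u) (mfderiv I 𝓘(ℝ, F) ψ q v) := by
  filter_upwards [h.comp, h.hψ.continuousAt.eventually h.eq, h.inv] with q h1 h2 h3 u v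
  rw [redG_apply, h2, h1, h1, add_sub_cancel_right]
  exact (inner_congr inner h3 u v).symm

/-- the pullback of a field of forms. -/
noncomputable def pulM (I : ModelWithCorners ℝ E H) (ψ : M → F) (g : F → F →L[ℝ] F →L[ℝ] ℝ) (b : M) :
    TangentSpace I b →L[ℝ] TangentSpace I b →L[ℝ] ℝ :=
  (ContinuousLinearMap.precomp ℝ (mfderiv I 𝓘(ℝ, F) ψ b)).comp
    ((g (ψ b)).comp (mfderiv I 𝓘(ℝ, F) ψ b))

lemma pulM_apply (ψ : M → F) (g : F → F →L[ℝ] F →L[ℝ] ℝ) (b : M) (u v : TangentSpace I b) :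
    pulM I ψ g b u v = g (ψ b) (mfderiv I 𝓘(ℝ, F) ψ b u) (mfderiv I 𝓘(ℝ, F) ψ b v) := rfl

lemma contMDiffAt_pulM {ψ : M → F} {x₀ : M} (hψ : ContMDiffAt I 𝓘(ℝ, F) ∞ ψ x₀)
    {g : F → F →L[ℝ] F →L[ℝ] ℝ} (hg : ContDiffAt ℝ ∞ g (ψ x₀)) :
    ContMDiffAt I (I.prod 𝓘(ℝ, E →L[ℝ] E →L[ℝ] ℝ)) ∞
      (fun b : M => (Bundle.TotalSpace.mk' (E →L[ℝ] E →L[ℝ] ℝ) b (pulM I ψ g b) :
          Bundle.TotalSpace (E →L[ℝ] E →L[ℝ] ℝ)
          (fun b : M => TangentSpace I b →L[ℝ] TangentSpace I b →L[ℝ] ℝ))) x₀ := by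
  rw [Bundle.contMDiffAt_section]
  have hD : ContMDiffAt I 𝓘(ℝ, E →L[ℝ] F) ∞ (inTangentCoordinates I 𝓘(ℝ, F) id ψ
        (mfderiv I 𝓘(ℝ, F) ψ) x₀) x₀ := hψ.mfderiv_const (by simp)
  set D := inTangentCoordinates I 𝓘(ℝ, F) id ψ (mfderiv I 𝓘(ℝ, F) ψ) x₀ with hDdef
  have hp : ContMDiffAt I 𝓘(ℝ, (F →L[ℝ] ℝ) →L[ℝ] (E →L[ℝ] ℝ)) ∞
      (fun x => ((ContinuousLinearMap.compL ℝ E F ℝ).flip (D x))) x₀ :=
    ((ContinuousLinearMap.compL ℝ E F ℝ).flip.contMDiff).contMDiffAt.comp x₀ hD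
  have hg' : ContMDiffAt I 𝓘(ℝ, F →L[ℝ] F →L[ℝ] ℝ) ∞ (fun x => g (ψ x)) x₀ :=
    (contMDiffAt_iff_contDiffAt.2 hg).comp x₀ hψ
  have hG := hp.clm_comp (hg'.clm_comp hD)
  refine hG.congr_of_eventuallyEq ?_
  have hx : x₀ ∈ (trivializationAt E (TangentSpace I : M → Type _) x₀).baseSet :=
    FiberBundle.mem_baseSet_trivializationAt' x₀
  filter_upwards [(trivializationAt E (TangentSpace I : M → Type _) x₀).open_baseSet.mem_nhds hx]
    with x hxb
  refine ContinuousLinearMap.ext fun v => ContinuousLinearMap.ext fun w => ?_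
  have hDx : ∀ v : E, D x v = mfderiv I 𝓘(ℝ, F) ψ x ((trivializationAt E
        (TangentSpace I : M → Type _) x₀).symmL ℝ x v) := by
    intro v
    simp only [hDdef, inTangentCoordinates, ContinuousLinearMap.inCoordinates,
      ContinuousLinearMap.comp_apply, id_eq]
    simp
    rfl
  have hL : ((trivializationAt (E →L[ℝ] E →L[ℝ] ℝ)
      (fun b : M => TangentSpace I b →L[ℝ] TangentSpace I b →L[ℝ] ℝ) x₀
        ⟨x, pulM I ψ g x⟩).2 v) w = pulM I ψ g x ((trivializationAt E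
        (TangentSpace I : M → Type _) x₀).symmL ℝ x v) ((trivializationAt E
        (TangentSpace I : M → Type _) x₀).symmL ℝ x w) := by
    rw [hom_trivializationAt_apply]
    simp only [ContinuousLinearMap.inCoordinates, ContinuousLinearMap.comp_apply]
    have hb : x ∈ (trivializationAt (E →L[ℝ] ℝ)
        (fun b : M => TangentSpace I b →L[ℝ] ℝ) x₀).baseSet := by
      rw [hom_trivializationAt_baseSet]
      exact ⟨hxb, by simp⟩
    rw [Bundle.Trivialization.continuousLinearMapAt_apply, Bundle.Trivialization.linearMapAt_apply,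
      if_pos hb, hom_trivializationAt_apply]
    simp only [ContinuousLinearMap.inCoordinates, ContinuousLinearMap.comp_apply]
    simp
  rw [hL, pulM_apply, ← hDx, ← hDx]
  rfl

/-- lifting a tangent vector. -/
lemma LocPos.lift (h : LocPos I inner p φ ψ G β) (v : E) (s : ℝ) :
    ∃ a : F, mfderiv 𝓘(ℝ, F) I φ (ψ p) a = v ∧ β (ψ p) a = s := by
  obtain ⟨r, hr, hr'⟩ := h.rad
  have h1 := h.comp.self_of_nhds v
  obtain ⟨w, hw⟩ : ∃ w : F, w = mfderiv I 𝓘(ℝ, F) ψ p v := ⟨_, rfl⟩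
  obtain ⟨L, hL⟩ : ∃ L : F →L[ℝ] E, L = mfderiv 𝓘(ℝ, F) I φ (ψ p) := ⟨_, rfl⟩
  have h1' : L w = v := by rw [hL, hw]; exact h1
  have h2' : L r = 0 := by rw [hL]; exact hr
  refine ⟨w + ((s - β (ψ p) w) / β (ψ p) r) • r, ?_, ?_⟩
  · have : L (w + ((s - β (ψ p) w) / β (ψ p) r) • r) = v := by
      rw [map_add, map_smul, h2', h1', smul_zero, add_zero]
    rw [hL] at this
    exact this
  · rw [map_add, map_smul, smul_eq_mul, div_mul_cancel₀ _ hr']
    ring

lemma LocPos.symm (h : LocPos I inner p φ ψ G β) (u v : TangentSpace I p) :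
    inner p u v = inner p v u := by
  have h1 := h.inner_eq.self_of_nhds
  rw [h1 u v, h1 v u, redG_apply, redG_apply, h.hs.self_of_nhds]
  ring

lemma LocPos.inner_pos (h : LocPos I inner p φ ψ G β) (v : TangentSpace I p) (hv : v ≠ 0) :
    0 < inner p v v := by
  obtain ⟨a, ha, ha'⟩ := h.lift v 0
  have h1 := h.eq.self_of_nhds a a
  rw [ha', ha, mul_zero, add_zero] at h1
  have ha0 : a ≠ 0 := by
    rintro rfl
    apply hv
    rw [← ha]
    exact map_zero _
  have h2 := h.hp.self_of_nhds a ha0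
  rw [h1] at h2
  rwa [inner_congr inner h.inv.self_of_nhds] at h2

lemma isVonNBounded_of_pos (B : E →L[ℝ] E →L[ℝ] ℝ) (hpos : ∀ v, v ≠ 0 → 0 < B v v) :
    Bornology.IsVonNBounded ℝ {v : E | B v v < 1} := by
  obtain ⟨c, hc, hlow⟩ := Pool.Agent.Helper28.HP.BR.exists_lower B hpos
  have hb : Bornology.IsVonNBounded ℝ (closedBall (0 : E) (1 / c + 1)) :=
    NormedSpace.isVonNBounded_closedBall _ _ _
  have hsub : {v : E | B v v < 1} ⊆ closedBall (0 : E) (1 / c + 1) := by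
    intro v hv
    have h1 := hlow v
    have h2 : B v v < 1 := hv
    rw [mem_closedBall_zero_iff]
    by_contra hcon
    push Not at hcon
    have h4 : 0 < 1 / c := by positivity
    have h5 : 1 ≤ ‖v‖ := by linarith
    have h6 : ‖v‖ ≤ ‖v‖ ^ 2 := by nlinarith only [hcon, h4]
    have h7 : 1 / c < ‖v‖ := by linarith
    have h8 : 1 < c * ‖v‖ := by
      rw [div_lt_iff₀ hc] at h7
      linarith
    have h9 : c * ‖v‖ ≤ c * ‖v‖ ^ 2 := mul_le_mul_of_nonneg_left h6 hc.le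
    linarith
  exact hb.subset hsub

theorem exists_metric_of_locPos (h : ∀ p : M, ∃ (φ : F → M) (ψ : M → F)
      (G : F → F →L[ℝ] F →L[ℝ] ℝ) (β : F → F →L[ℝ] ℝ), LocPos I inner p φ ψ G β) :
    ∃ g : Bundle.ContMDiffRiemannianMetric I ∞ E (fun x : M => TangentSpace I x),
      ∀ p u v, g.inner p u v = inner p u v := by
  refine ⟨{ inner := inner, symm := fun p v w => ?_, pos := fun p v hv => ?_,
            isVonNBounded := fun p => ?_,
            contMDiff := fun p => ?_ }, fun p u v => rfl⟩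
  · obtain ⟨φ, ψ, G, β, H⟩ := h p
    exact H.symm v w
  · obtain ⟨φ, ψ, G, β, H⟩ := h p
    exact H.inner_pos v hv
  · obtain ⟨φ, ψ, G, β, H⟩ := h p
    exact isVonNBounded_of_pos (E := E) (inner p) (fun v hv => H.inner_pos v hv)
  · obtain ⟨φ, ψ, G, β, H⟩ := h p
    have h1 : ContDiffAt ℝ ∞ (redG G β) (ψ p) := by
      unfold redG
      exact H.hG.sub (H.hβ.smulRight H.hβ)
    refine (contMDiffAt_pulM H.hψ h1).congr_of_eventuallyEq ?_
    filter_upwards [H.inner_eq] with q hq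
    congr 1
    refine ContinuousLinearMap.ext fun u => ContinuousLinearMap.ext fun v => ?_
    exact hq u v

/-- positivity of the curvature at `p`. -/
theorem LocPos.curv (h : LocPos I inner p φ ψ G β)
    (g : Bundle.ContMDiffRiemannianMetric I ∞ E (fun x : M => TangentSpace I x))
    (hg : ∀ q u v, g.inner q u v = inner q u v) (u v : TangentSpace I p)
    (huv : LinearIndependent ℝ ![u, v]) : 0 < sectionalCurvature g p u v := by
  have hp0 : φ (ψ p) = p := h.inv.self_of_nhds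
  obtain ⟨y₀, hy₀⟩ : ∃ y₀ : E, y₀ = extChartAt I p p := ⟨_, rfl⟩
  have hyt : y₀ ∈ (extChartAt I p).target := by rw [hy₀]; exact mem_extChartAt_target p
  have htn : (extChartAt I p).target ∈ 𝓝 y₀ := (isOpen_extChartAt_target (I := I) p).mem_nhds hyt
  have hσ0 : (extChartAt I p).symm y₀ = p := by rw [hy₀, extChartAt_to_inv]
  have hσ : ∀ y ∈ (extChartAt I p).target, ContMDiffAt 𝓘(ℝ, E) I ∞ (extChartAt I p).symm y :=
    fun y hy => (contMDiffOn_extChartAt_symm p).contMDiffAt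
      ((isOpen_extChartAt_target (I := I) p).mem_nhds hy)
  -- the map `χ`
  obtain ⟨χ, hχ⟩ : ∃ χ : F → E, χ = fun w => extChartAt I p (φ w) := ⟨_, rfl⟩
  have hχ0 : χ (ψ p) = y₀ := by rw [hχ, hy₀]; simp only [hp0]
  have f1 : ∀ᶠ w in 𝓝 (ψ p), φ w ∈ (extChartAt I p).source := by
    refine h.hφ.continuousAt.eventually ((isOpen_extChartAt_source (I := I) p).mem_nhds ?_)
    rw [hp0]; exact mem_extChartAt_source p
  have f2 : ∀ w, ContMDiffAt 𝓘(ℝ, F) I 3 φ w → φ w ∈ (extChartAt I p).source →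
      ContDiffAt ℝ 3 χ w := by
    intro w h1 h2
    rw [hχ]
    refine contMDiffAt_iff_contDiffAt.1 ?_
    refine ContMDiffAt.comp (I' := I) w ?_ h1
    refine (contMDiffAt_extChartAt' (n := ∞) ?_).of_le (WithTop.coe_le_coe.2 le_top)
    rwa [extChartAt_source] at h2
  have f3 : ∀ᶠ w in 𝓝 (ψ p), ∀ a : F,
      mfderiv 𝓘(ℝ, E) I (extChartAt I p).symm (χ w) (fderiv ℝ χ w a)
        = mfderiv 𝓘(ℝ, F) I φ w a := by
    filter_upwards [h.fφ, f1.eventually_nhds] with w h1 h2 a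
    have h3 := h2.self_of_nhds
    have e1 : ((extChartAt I p).symm ∘ χ) =ᶠ[𝓝 w] φ := by
      filter_upwards [h2] with w' hw'
      rw [Function.comp_apply, hχ]
      exact (extChartAt I p).left_inv hw'
    have hm : χ w ∈ (extChartAt I p).target := by rw [hχ]; exact (extChartAt I p).map_source h3
    have e2 := mfderiv_comp (I := 𝓘(ℝ, F)) (I' := 𝓘(ℝ, E)) (I'' := I) w
      ((hσ _ hm).mdifferentiableAt (by simp))
      ((contMDiffAt_iff_contDiffAt.2 (f2 w h1 h3)).mdifferentiableAt (by norm_num))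
    have e3 : mfderiv 𝓘(ℝ, F) I ((extChartAt I p).symm ∘ χ) w = mfderiv 𝓘(ℝ, F) I φ w := e1.mfderiv_eq
    rw [e3, mfderiv_eq_fderiv] at e2
    exact (DFunLike.congr_fun e2 a).symm
  have f4 : ∀ᶠ w in 𝓝 (ψ p), ∀ a b : F, G w a b
      = coordMetric g p (χ w) (fderiv ℝ χ w a) (fderiv ℝ χ w b) + β w a * β w b := by
    filter_upwards [f3, h.eq, f1] with w h3 h4 h1 a b
    rw [h4]
    congr 1
    have e1 : coordMetric g p (χ w) (fderiv ℝ χ w a) (fderiv ℝ χ w b)
        = g.inner ((extChartAt I p).symm (χ w))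
          (mfderiv 𝓘(ℝ, E) I (extChartAt I p).symm (χ w) (fderiv ℝ χ w a))
          (mfderiv 𝓘(ℝ, E) I (extChartAt I p).symm (χ w) (fderiv ℝ χ w b)) := rfl
    rw [e1, hg, h3, h3]
    have e2 : (extChartAt I p).symm (χ w) = φ w := by
      rw [hχ]
      exact (extChartAt I p).left_inv h1
    exact (inner_congr inner e2 _ _).symm
  -- the metric in the chart
  have m1 : MetAt (coordMetric g p) y₀ := by
    obtain ⟨τ, hτ⟩ : ∃ τ : E → F, τ = fun y => ψ ((extChartAt I p).symm y) := ⟨_, rfl⟩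
    have hτd : ContDiffAt ℝ ∞ τ y₀ := by
      rw [hτ]
      refine contMDiffAt_iff_contDiffAt.1 ?_
      refine ContMDiffAt.comp (I' := I) y₀ ?_ (hσ _ hyt)
      rw [hσ0]; exact h.hψ
    have hτ0 : τ y₀ = ψ p := by rw [hτ]; simp only [hσ0]
    refine ⟨?_, Eventually.of_forall (fun y u v => g.symm _ _ _), ?_⟩
    · have e1 : coordMetric g p =ᶠ[𝓝 y₀] fun y =>
          (redG G β (τ y)).bilinearComp (fderiv ℝ τ y) (fderiv ℝ τ y) := by
        have c1 : ContinuousAt (extChartAt I p).symm y₀ := (hσ _ hyt).continuousAt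
        rw [ContinuousAt, hσ0] at c1
        filter_upwards [c1.eventually h.inner_eq, c1.eventually h.fψ, htn] with y h1 h2 h3
        refine ContinuousLinearMap.ext (fun a => ContinuousLinearMap.ext (fun b => ?_))
        have e1 : coordMetric g p y a b = g.inner ((extChartAt I p).symm y)
          (mfderiv 𝓘(ℝ, E) I (extChartAt I p).symm y a)
          (mfderiv 𝓘(ℝ, E) I (extChartAt I p).symm y b) := rfl
        have e2 := mfderiv_comp (I := 𝓘(ℝ, E)) (I' := I) (I'' := 𝓘(ℝ, F)) y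
          (h2.mdifferentiableAt (by norm_num)) ((hσ _ h3).mdifferentiableAt (by simp))
        have e3 : mfderiv 𝓘(ℝ, E) 𝓘(ℝ, F) (ψ ∘ (extChartAt I p).symm) y = fderiv ℝ τ y := by
          rw [mfderiv_eq_fderiv, hτ]; rfl
        rw [e3] at e2
        have e4 : ∀ a : E, fderiv ℝ τ y a = mfderiv I 𝓘(ℝ, F) ψ ((extChartAt I p).symm y)
            (mfderiv 𝓘(ℝ, E) I (extChartAt I p).symm y a) := fun a => DFunLike.congr_fun e2 a
        rw [e1, hg, h1, ContinuousLinearMap.bilinearComp_apply, e4, e4, hτ]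
      refine ContDiffAt.congr_of_eventuallyEq ?_ e1
      refine contDiffAt_bilinearComp ?_ ?_
      · have h1 : ContDiffAt ℝ ∞ (redG G β) (τ y₀) := by
          rw [hτ0]
          unfold redG
          exact h.hG.sub (h.hβ.smulRight h.hβ)
        exact (h1.comp y₀ hτd).of_le (WithTop.coe_le_coe.2 le_top)
      · exact hτd.fderiv_right (m := 2) (WithTop.coe_le_coe.2 le_top)
    · filter_upwards [htn] with y hy' u hu
      have h2 := isInvertible_mfderivWithin_extChartAt_symm (I := I) hy'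
      rw [ModelWithCorners.range_eq_univ, mfderivWithin_univ] at h2
      refine g.pos _ _ (fun h0 => hu ?_)
      exact h2.injective (h0.trans (map_zero _).symm)
  have m2 : MetAt G (ψ p) := ⟨h.hG.of_le (WithTop.coe_le_coe.2 le_top), h.hs, h.hp⟩
  -- the differential of `χ`
  have hχd : ∀ a : F, fderiv ℝ χ (ψ p) a = mfderiv 𝓘(ℝ, F) I φ (ψ p) a := by
    intro a
    have e0 : MDifferentiableAt I 𝓘(ℝ, E) (extChartAt I p) (φ (ψ p)) := by
      rw [hp0]
      exact (contMDiffAt_extChartAt (n := ∞)).mdifferentiableAt (by simp)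
    have e1 := mfderiv_comp (I := 𝓘(ℝ, F)) (I' := I) (I'' := 𝓘(ℝ, E)) (ψ p) e0
      (h.hφ.mdifferentiableAt (by simp))
    have e2 : mfderiv 𝓘(ℝ, F) 𝓘(ℝ, E) ((extChartAt I p) ∘ φ) (ψ p) = fderiv ℝ χ (ψ p) := by
      rw [mfderiv_eq_fderiv, hχ]; rfl
    rw [e2] at e1
    have e3 := DFunLike.congr_fun e1 a
    have e4 : ∀ q (hq : q = p) (w : E), mfderiv I 𝓘(ℝ, E) (extChartAt I p) q w = w := by
      intro q hq w
      subst hq
      have := mfderiv_extChartAt_self (I := I) (x := q)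
      exact DFunLike.congr_fun this w
    exact e3.trans (e4 _ hp0 _)
  have hsurj : ∀ (a' : E) (s : ℝ), ∃ a, fderiv ℝ χ (ψ p) a = a' ∧ β (ψ p) a = s := by
    intro a' s
    obtain ⟨a, h1, h2⟩ := h.lift a' s
    exact ⟨a, (hχd a).trans h1, h2⟩
  obtain ⟨a, ha, ha'⟩ := hsurj u 0
  obtain ⟨b, hb, hb'⟩ := hsurj v 0
  have key := num_submersion (G := G) (G' := coordMetric g p) (φ := χ) (z := ψ p) (β := β)
    (f2 _ (h.hφ.of_le (WithTop.coe_le_coe.2 le_top)) f1.self_of_nhds)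
    (h.hβ.of_le (WithTop.coe_le_coe.2 le_top)) (by rw [hχ0]; exact m1) m2 hsurj f4
    (u := a) (v := b) ha' hb'
  rw [h.closed, sub_self, hχ0, ha, hb] at key
  have hab : LinearIndependent ℝ ![a, b] := by
    rw [LinearIndependent.pair_iff] at huv ⊢
    intro s t hst
    apply huv s t
    have e1 : fderiv ℝ χ (ψ p) (s • a + t • b) = 0 := by rw [hst, map_zero]
    rw [map_add, map_smul, map_smul, ha, hb] at e1
    exact e1
  have hpos := h.pos a b ha' hb' hab
  rw [key] at hpos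
  have hn : 0 < num (coordMetric g p) y₀ u v := by simpa using hpos
  have := secCurv_pos m1 huv hn
  rw [hy₀] at this
  exact this

/-- **A family of local data defines a metric of positive curvature.** -/
theorem admits_of_locPos (inner : ∀ p : M, TangentSpace I p →L[ℝ] TangentSpace I p →L[ℝ] ℝ)
    (h : ∀ p : M, ∃ (φ : F → M) (ψ : M → F)
      (G : F → F →L[ℝ] F →L[ℝ] ℝ) (β : F → F →L[ℝ] ℝ), LocPos I inner p φ ψ G β) :
    AdmitsPositiveCurvature I M := by
  obtain ⟨g, hg⟩ := exists_metric_of_locPos h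
  refine ⟨g, fun p u v huv => ?_⟩
  obtain ⟨φ, ψ, G, β, H⟩ := h p
  exact H.curv g hg u v huv

end

end Pool.Agent.Helper20.MB
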