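import Pool.Agent.Helper20.MB.CollapseN
import Pool.Agent.Helper20.MB.Fin.A7c
import Pool.Agent.Helper20.MB.Fin.A7e
import Pool.Agent.Helper20.MB.Fin.A8a
import Pool.Agent.Helper20.MB.Fin.A8b
import Pool.Agent.Helper20.MB.Fin.A8c
import Pool.Agent.Helper20.MB.Fin.A9

/-!
# Positive curvature of sphere bundles
-/

open Filter Metric Module Set
open scoped Topology ContDiff RealInnerProductSpace Manifold

set_option maxSynthPendingDepth 3

namespace Pool.Agent.Helper20.MB
open Pool.Agent.Helper20.PC Pool.Agent.Helper20.HP Pool.Agent.Helper20.M8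

section
variable {V Y : Type*} [NormedAddCommGroup V] [NormedSpace ℝ V] [FiniteDimensional ℝ V]
  [NormedAddCommGroup Y] [NormedSpace ℝ Y] [FiniteDimensional ℝ Y]

variable {D : BD V Y} {x : V} {y : Y}

lemma til_k_self (D : BD V Y) (x : V) : (D.til x).k x = D.k x := by
  ext p q
  rw [BD.til_k, Spec.gau_self]; rfl

lemma til_S_self (D : BD V Y) (x : V) : (D.til x).S x = D.S x := by
  ext a b c d
  rw [BD.til_S, Spec.gau_self]; rfl

lemma til_Om_self (H : D.Good x) (ζ ζ' : V) : OmV (D.til x).A x ζ ζ' = OmV D.A x ζ ζ' := by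
  ext p
  rw [(Spec.til_OmV H).self_of_nhds, Spec.gau_self]
  simp [ContinuousLinearMap.inverse_id]

lemma til_bdd (H : D.Good x) {b : ℝ} (hb : D.Bdd x b) : (D.til x).Bdd x (max b 1) := by
  have k0 := til_k_self D x
  have S0 := til_S_self D x
  refine ⟨?_, ?_, ?_, ?_, ?_, ?_⟩
  · intro X U hX hU
    exact (hb.num X U hX hU).trans (le_max_left _ _)
  · intro X U y p hX hU hy hp
    rw [k0] at hy hp
    have := hb.Om X U y p hX hU hy hp
    simp only [BD.OmS] at this ⊢
    rw [k0, til_Om_self H]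
    exact this.trans (le_max_left _ _)
  · intro X U y p hX hU hy hp
    rw [k0] at hy hp
    rw [(Spec.til_lie H _ rfl).1]
    exact (hb.dOm X U y p hX hU hy hp).trans (le_max_left _ _)
  · intro a b' c d h1 h2 h3 h4
    rw [k0] at h1 h2 h3 h4
    rw [S0]
    exact (hb.S a b' c d h1 h2 h3 h4).trans (le_max_left _ _)
  · intro X a b' c d hX h1 h2 h3 h4
    rw [k0] at h1 h2 h3 h4
    rw [(Spec.til_lie H _ rfl).2.1]
    exact (hb.dS X a b' c d hX h1 h2 h3 h4).trans (le_max_left _ _)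
  · intro X a b' c d hX h1 h2 h3 h4
    rw [k0] at h1 h2 h3 h4
    rw [(Spec.til_lie H _ rfl).2.2]
    exact (hb.ddS X a b' c d hX h1 h2 h3 h4).trans (le_max_left _ _)

lemma til_TN (H : D.Good x) {c : ℝ} (hT : D.TT x c) : (D.til x).TN x c := by
  intro X U y p hX hXU hy hyp t ht
  rw [til_k_self] at hy hyp ⊢
  have h0 : (D.til x).h = D.h := rfl
  rw [h0] at hX hXU ht
  have ht' : ∀ ξ, D.h x t ξ = D.k x y (OmV D.A x X ξ p) := by
    intro ξ
    rw [ht, til_k_self, til_Om_self H]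
  have key := hT X U y p hX hXU hy hyp t ht'
  have L := Spec.lie_NG (Spec.til_good H) (Spec.til_NG H) X U y p y p
  rw [til_k_self] at L
  rw [← (Spec.til_lie H _ rfl).1, ← (Spec.til_lie H _ rfl).2.2, L.1, L.2.2] at key
  exact key

/-- **The collapse theorem.** -/
theorem collapse (hV : 2 ≤ finrank ℝ V) (hY : 3 ≤ finrank ℝ Y) {b c : ℝ} (hc : 0 < c) :
    ∃ η₀ > 0, ∀ η, 0 < η → η ≤ η₀ → ∀ (D : BD V Y) (x : V), D.Good x → D.Bdd x b → D.TT x c →
      ∀ y : Y, D.k x y y = 1 →
      (∀ a, a ≠ 0 → 0 < fibL D.k D.S η (x, y) a a) ∧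
      ∀ u v : V × Y, D.k x y (u.2 + D.A x u.1 y) = 0 → D.k x y (v.2 + D.A x v.1 y) = 0 →
        LinearIndependent ℝ ![u, v] → 0 < num (D.G η) (x, y) u v := by
  obtain ⟨η₀, h0, h1, hb0, Hη⟩ := eta_exists (b := max b 1) (le_max_right _ _) hc
  refine ⟨η₀, h0, fun η hη hη' D x H hb hT y hy => ?_⟩
  have hb' : η ^ 2 * max b 1 ≤ 1 / 100 := by
    refine le_trans ?_ hb0
    exact mul_le_mul_of_nonneg_right (pow_le_pow_left₀ hη.le hη' 2) (le_trans zero_le_one (le_max_right _ _))
  have Hg := Spec.til_good H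
  have N := Spec.til_NG H
  have B := Spec.bdN_of Hg N (le_max_right _ _) (til_bdd H hb)
  have TN := til_TN H hT
  have k0 := til_k_self D x
  have S0 := til_S_self D x
  have hyt : (D.til x).k x y y = 1 := by rw [k0]; exact hy
  have hpt := fib_pos N B hη (hη'.trans h1) hb' hyt
  have hpos : ∀ a, a ≠ 0 → 0 < fibL D.k D.S η (x, y) a a := by
    intro a ha
    have := hpt a ha
    rw [fibL_apply] at this ⊢
    simp only [k0, S0] at this
    exact this
  refine ⟨hpos, fun u v hu hv huv => ?_⟩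
  have hy0 : y ≠ 0 := by
    rintro rfl
    simp at hy
  have e := Spec.til_num H hy0 hpos (u.1, u.2 + D.A x u.1 y) (v.1, v.2 + D.A x v.1 y)
  simp only [add_sub_cancel_right] at e
  rw [← e]
  refine collapse_NG hV hY hc Hg N B TN hη (hη'.trans h1) hb' (Hη η hη hη') hyt
    (by rw [k0]; exact hu) (by rw [k0]; exact hv) ?_
  rw [LinearIndependent.pair_iff] at huv ⊢
  intro s t hst
  apply huv
  have h2 := congrArg Prod.fst hst
  have h3 := congrArg Prod.snd hst
  simp only [Prod.fst_add, Prod.smul_fst, Prod.fst_zero, Prod.snd_add, Prod.smul_snd,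
    Prod.snd_zero] at h2 h3
  have h4 : D.A x (s • u.1 + t • v.1) y = 0 := by rw [h2]; simp
  simp only [map_add, map_smul, _root_.add_apply, _root_.smul_apply] at h4
  apply Prod.ext
  · simpa using h2
  · simp only [Prod.snd_add, Prod.smul_snd, Prod.snd_zero]
    calc s • u.2 + t • v.2 = (s • (u.2 + D.A x u.1 y) + t • (v.2 + D.A x v.1 y))
          - (s • D.A x u.1 y + t • D.A x v.1 y) := by module
      _ = 0 := by rw [h3, h4, sub_zero]

end

end Pool.Agent.Helper20.MB
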