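import Pool.Agent.Helper20.MB.Defs
import Pool.Agent.Helper20.M8.ExactD

/-!
# Skew symmetry of the curvature and of its derivative
-/

open Filter Metric Module Set
open scoped Topology ContDiff RealInnerProductSpace Manifold

set_option maxSynthPendingDepth 3

namespace Pool.Agent.Helper20.MB
open Pool.Agent.Helper20.PC Pool.Agent.Helper20.HP Pool.Agent.Helper20.M8
open Pool.Agent.Helper76.HP (ev_diff diff_fderiv)

section
variable {V Y : Type*} [NormedAddCommGroup V] [NormedSpace ℝ V]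
  [NormedAddCommGroup Y] [NormedSpace ℝ Y] {k : V → Y →L[ℝ] Y →L[ℝ] ℝ}
  {A : V → V →L[ℝ] Y →L[ℝ] Y} {x : V}

/-- the second derivative of a parallel form. -/
lemma ddk_eq (hk : ContDiffAt ℝ 2 k x) (hA : ContDiffAt ℝ 2 A x)
    (hpar : ∀ᶠ x' in 𝓝 x, ∀ (u : V) (p q : Y),
      fderiv ℝ k x' u p q = k x' (A x' u p) q + k x' p (A x' u q)) (ξ ζ : V) (p q : Y) :
    fderiv ℝ (fderiv ℝ k) x ξ ζ p q = fderiv ℝ k x ξ (A x ζ p) q + k x (fderiv ℝ A x ξ ζ p) q
      + (fderiv ℝ k x ξ p (A x ζ q) + k x p (fderiv ℝ A x ξ ζ q)) := by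
  have e : (fun x' => fderiv ℝ k x' ζ p q) =ᶠ[𝓝 x] (fun x' => k x' (A x' ζ p) q + k x' p (A x' ζ q)) :=
    hpar.mono (fun x' hx' => hx' ζ p q)
  have d1 := ((((diff_fderiv hk).hasFDerivAt.clm_apply (hasFDerivAt_const ζ x)).clm_apply
    (hasFDerivAt_const p x)).clm_apply (hasFDerivAt_const q x)).fderiv
  have dk := (hk.differentiableAt (by norm_num)).hasFDerivAt
  have dA := (hA.differentiableAt (by norm_num)).hasFDerivAt
  have a1 : ∀ p, HasFDerivAt (fun x' => A x' ζ p) _ x := fun p =>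
    (dA.clm_apply (hasFDerivAt_const ζ x)).clm_apply (hasFDerivAt_const p x)
  have tot : HasFDerivAt (fun x' => k x' (A x' ζ p) q + k x' p (A x' ζ q)) _ x :=
    ((dk.clm_apply (a1 p)).clm_apply (hasFDerivAt_const q x)).add
      ((dk.clm_apply (hasFDerivAt_const p x)).clm_apply (a1 q))
  have h1 := e.fderiv_eq (𝕜 := ℝ)
  rw [d1, tot.fderiv] at h1
  have h2 := DFunLike.congr_fun h1 ξ
  simp at h2
  rw [h2]
  ring

/-- the curvature is skew. -/
lemma OmV_skew_of (hk : ContDiffAt ℝ 2 k x) (hA : ContDiffAt ℝ 2 A x)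
    (hpar : ∀ᶠ x' in 𝓝 x, ∀ (u : V) (p q : Y),
      fderiv ℝ k x' u p q = k x' (A x' u p) q + k x' p (A x' u q)) (ξ ζ : V) (p q : Y) :
    k x (OmV A x ξ ζ p) q + k x p (OmV A x ξ ζ q) = 0 := by
  have h1 := ddk_eq hk hA hpar ξ ζ p q
  have h2 := ddk_eq hk hA hpar ζ ξ p q
  have sw : fderiv ℝ (fderiv ℝ k) x ζ ξ = fderiv ℝ (fderiv ℝ k) x ξ ζ :=
    (hk.isSymmSndFDerivAt (by simp)) ζ ξ
  have hp := hpar.self_of_nhds
  rw [sw] at h2
  simp only [hp] at h1 h2
  simp only [OmV, _root_.sub_apply, _root_.add_apply, ContinuousLinearMap.comp_apply, map_sub, map_add]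
  linear_combination h2 - h1

end

section
variable {V Y : Type*} [NormedAddCommGroup V] [NormedSpace ℝ V] [FiniteDimensional ℝ V]
  [NormedAddCommGroup Y] [NormedSpace ℝ Y] [FiniteDimensional ℝ Y] {D : BD V Y} {x : V}

/-- the derivative of the curvature is skew. -/
lemma DOmV_skew (H : D.Good x) (N : NG D.h D.k D.S D.A x) (X ζ ζ' : V) (p q : Y) :
    D.k x (DOmV D.h D.A x X ζ ζ' p) q = - D.k x p (DOmV D.h D.A x X ζ ζ' q) := by
  have hk2 : ContDiffAt ℝ 2 D.k x := H.hk.of_le (by norm_cast)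
  have hA2 : ContDiffAt ℝ 2 D.A x := H.hA.of_le (by norm_cast)
  have hev : ∀ᶠ x' in 𝓝 x, ∀ (ξ ζ : V) (p q : Y),
      D.k x' (OmV D.A x' ξ ζ p) q + D.k x' p (OmV D.A x' ξ ζ q) = 0 := by
    filter_upwards [hk2.eventually (by norm_num), hA2.eventually (by norm_num),
      H.kpar.eventually_nhds] with x' h1 h2 h3 ξ ζ p q
    exact OmV_skew_of h1 h2 h3 ξ ζ p q
  have dk := (hk2.differentiableAt (by norm_num)).hasFDerivAt
  have dO : ∀ p, HasFDerivAt (fun x' => OmV D.A x' ζ ζ' p)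
      ((fderiv ℝ (fun x' => OmV D.A x' ζ ζ') x).flip p) x := by
    intro p
    have d0 : DifferentiableAt ℝ (fun x' => OmV D.A x' ζ ζ') x := by
      have dA := hA2.differentiableAt (by norm_num : (2 : WithTop ℕ∞) ≠ 0)
      have d1 : ∀ a b, DifferentiableAt ℝ (fun x' => fderiv ℝ D.A x' a b) x := fun a b =>
        (((diff_fderiv hA2).clm_apply (differentiableAt_const _)).clm_apply (differentiableAt_const _))
      have a1 : ∀ a, DifferentiableAt ℝ (fun x' => D.A x' a) x := fun a => dA.clm_apply (differentiableAt_const a)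
      exact (((d1 ζ ζ').sub (d1 ζ' ζ)).add ((a1 ζ).clm_comp (a1 ζ'))).sub ((a1 ζ').clm_comp (a1 ζ))
    have := d0.hasFDerivAt.clm_apply (hasFDerivAt_const p x)
    refine this.congr_fderiv ?_
    ext v; simp
  have tot : HasFDerivAt (fun x' => D.k x' (OmV D.A x' ζ ζ' p) q + D.k x' p (OmV D.A x' ζ ζ' q)) _ x :=
    ((dk.clm_apply (dO p)).clm_apply (hasFDerivAt_const q x)).add
      ((dk.clm_apply (hasFDerivAt_const p x)).clm_apply (dO q))
  have e : (fun x' => D.k x' (OmV D.A x' ζ ζ' p) q + D.k x' p (OmV D.A x' ζ ζ' q)) =ᶠ[𝓝 x]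
      (fun _ => (0 : ℝ)) := hev.mono (fun x' hx' => hx' ζ ζ' p q)
  have h1 := e.fderiv_eq (𝕜 := ℝ)
  rw [tot.fderiv] at h1
  have h2 := DFunLike.congr_fun h1 X
  simp [N.m1] at h2
  have h3 := OmV_skew N (Gam D.h x X ζ) ζ' p q
  have h4 := OmV_skew N ζ (Gam D.h x X ζ') p q
  simp only [DOmV, N.A0, _root_.zero_apply, ContinuousLinearMap.zero_comp, ContinuousLinearMap.comp_zero,
    add_zero, sub_zero, _root_.sub_apply, map_sub]
  linear_combination h2 - h3 - h4

end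

end Pool.Agent.Helper20.MB
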