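import Pool.Agent.Helper20.MB.DefsN
import Pool.Agent.Helper82.HP.D1

/-!
# The real inequality for small `η`, with an arbitrary lower bound of the curvature of the base
-/

namespace Pool.Agent.Helper20.MB
open Pool.Agent.Helper20.HP

theorem small_eta {B c : ℝ} (hB : 1 ≤ B) (hc : 0 < c) :
    ∃ δ₀ > 0, ∀ δ, 0 < δ → δ ≤ δ₀ → ∀ K l1 l2 q1 q2 xx z m1 m2 : ℝ,
      |K| ≤ B → |l1| ≤ B → |l2| ≤ B → |q1| ≤ B → |q2| ≤ B → c ≤ K →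
      c ≤ 4 * K * q1 - l1 ^ 2 → c ≤ 4 * K * q2 - l2 ^ 2 →
      xx * z = m1 * m2 → xx ^ 2 + z ^ 2 + m1 ^ 2 + m2 ^ 2 = 1 →
      0 < K * xx ^ 2 + (1/4) * (δ ^ 2)⁻¹ * z ^ 2 + δ * xx * (m1 * l1 + m2 * l2)
        + δ ^ 2 * (m1 ^ 2 * q1 + m2 ^ 2 * q2) - B * Er δ xx z m1 m2 := by
  -- scale by `1/(2e)`, `e = min c (1/2)`
  obtain ⟨e, he⟩ : ∃ e, e = min c (1/2) := ⟨_, rfl⟩
  have he0 : 0 < e := by rw [he]; positivity
  have hec : e ≤ c := by rw [he]; exact min_le_left _ _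
  have he2 : e ≤ 1/2 := by rw [he]; exact min_le_right _ _
  have hs : 0 < (2 * e)⁻¹ := by positivity
  have hs1 : 1 ≤ (2 * e)⁻¹ := by
    rw [one_le_inv₀ (by positivity)]
    linarith
  obtain ⟨δ₀, hδ₀, H⟩ := Pool.Agent.Helper82.HP.small_delta (B := (2 * e)⁻¹ * B) (c := ((2 * e)⁻¹) ^ 2 * c)
    (by nlinarith) (by positivity)
  refine ⟨δ₀, hδ₀, ?_⟩
  intro δ hδ hδ' K l1 l2 q1 q2 xx z m1 m2 hK hl1 hl2 hq1 hq2 hKc h1 h2 hz hsum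
  have key := H δ hδ hδ' ((2 * e)⁻¹ * K) ((2 * e)⁻¹ * l1) ((2 * e)⁻¹ * l2) ((2 * e)⁻¹ * q1)
    ((2 * e)⁻¹ * q2) xx z m1 m2
    (by rw [abs_mul, abs_of_pos hs]; exact mul_le_mul_of_nonneg_left hK hs.le)
    (by rw [abs_mul, abs_of_pos hs]; exact mul_le_mul_of_nonneg_left hl1 hs.le)
    (by rw [abs_mul, abs_of_pos hs]; exact mul_le_mul_of_nonneg_left hl2 hs.le)
    (by rw [abs_mul, abs_of_pos hs]; exact mul_le_mul_of_nonneg_left hq1 hs.le)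
    (by rw [abs_mul, abs_of_pos hs]; exact mul_le_mul_of_nonneg_left hq2 hs.le)
    (by
      have : (2 * e)⁻¹ * e = 1/2 := by field_simp
      calc (1/2 : ℝ) = (2 * e)⁻¹ * e := this.symm
        _ ≤ (2 * e)⁻¹ * K := mul_le_mul_of_nonneg_left (by linarith) hs.le)
    (by
      have : ((2 * e)⁻¹) ^ 2 * c ≤ ((2 * e)⁻¹) ^ 2 * (4 * K * q1 - l1 ^ 2) :=
        mul_le_mul_of_nonneg_left h1 (by positivity)
      linarith [this])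
    (by
      have : ((2 * e)⁻¹) ^ 2 * c ≤ ((2 * e)⁻¹) ^ 2 * (4 * K * q2 - l2 ^ 2) :=
        mul_le_mul_of_nonneg_left h2 (by positivity)
      linarith [this])
    hz hsum
  have hz2 : 0 ≤ (1/4) * (δ ^ 2)⁻¹ * z ^ 2 := by positivity
  have h3 : (1/4) * (δ ^ 2)⁻¹ * z ^ 2 ≤ (2 * e)⁻¹ * ((1/4) * (δ ^ 2)⁻¹ * z ^ 2) := by nlinarith
  have h4 : 0 < (2 * e)⁻¹ * (K * xx ^ 2 + (1/4) * (δ ^ 2)⁻¹ * z ^ 2 + δ * xx * (m1 * l1 + m2 * l2)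
        + δ ^ 2 * (m1 ^ 2 * q1 + m2 ^ 2 * q2) - B * Er δ xx z m1 m2) := by
    refine lt_of_lt_of_le key ?_
    linarith [h3]
  exact pos_of_mul_pos_right h4 hs.le

end Pool.Agent.Helper20.MB
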