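import Pool.Agent.Helper20.MB.Fin.A4a
import Pool.Agent.Helper20.MB.Fin.A4b
import Pool.Agent.Helper20.MB.Fin.A4c
import Pool.Agent.Helper20.MB.Fin.A5
import Pool.Agent.Helper20.MB.Fin.A7df
import Pool.Agent.Helper20.MB.Skew
import Pool.Agent.Helper20.M8.Exact
import Pool.Agent.Helper20.MB.Small
import Pool.Agent.Helper93.HP.P4

/-!
# Positive curvature of the sphere bundle in normal gauge
-/

open Filter Metric Module Set
open scoped Topology ContDiff RealInnerProductSpace Manifold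

set_option maxSynthPendingDepth 3

namespace Pool.Agent.Helper20.MB
open Pool.Agent.Helper20.PC Pool.Agent.Helper20.HP Pool.Agent.Helper20.M8
open Pool.Agent.Helper76.HP (ev_diff diff_fderiv)

section
variable {V Y : Type*} [NormedAddCommGroup V] [NormedSpace ℝ V] [FiniteDimensional ℝ V]
  [NormedAddCommGroup Y] [NormedSpace ℝ Y] [FiniteDimensional ℝ Y]

lemma riesz_fun {E : Type*} [NormedAddCommGroup E] [NormedSpace ℝ E] [FiniteDimensional ℝ E]
    {G : E →L[ℝ] E →L[ℝ] ℝ} (hG : ∀ u, u ≠ 0 → 0 < G u u) (l : E → ℝ)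
    (h1 : ∀ a b, l (a + b) = l a + l b) (h2 : ∀ (r : ℝ) a, l (r • a) = r * l a) :
    ∃ t, ∀ ξ, G t ξ = l ξ := by
  let L : E →L[ℝ] ℝ := LinearMap.toContinuousLinearMap
    { toFun := l, map_add' := h1, map_smul' := fun r a => by simp [h2] }
  refine ⟨G.inverse L, fun ξ => ?_⟩
  rw [(invertible_of_pos hG).self_apply_inverse]
  rfl

variable {D : BD V Y} {x : V} {y : Y}

lemma nrm_sq {E : Type*} [NormedAddCommGroup E] [NormedSpace ℝ E] {f : E →L[ℝ] E →L[ℝ] ℝ}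
    (hf : ∀ a, 0 ≤ f a a) (a : E) : nrm f a ^ 2 = f a a := Real.sq_sqrt (hf a)

lemma nrm_nonneg {E : Type*} [NormedAddCommGroup E] [NormedSpace ℝ E] (f : E →L[ℝ] E →L[ℝ] ℝ)
    (a : E) : 0 ≤ nrm f a := Real.sqrt_nonneg _

lemma nrm_one {E : Type*} [NormedAddCommGroup E] [NormedSpace ℝ E] {f : E →L[ℝ] E →L[ℝ] ℝ}
    {a : E} (h : f a a = 1) : nrm f a = 1 := by rw [nrm, h, Real.sqrt_one]

/-- `S(y,p;y,p)` is bounded by `b k(p,p)`. -/
lemma S_bound {b : ℝ} (hk : ∀ a, 0 ≤ D.k x a a) (hb : BdN D.h D.k D.S D.A x b) (hy : D.k x y y = 1)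
    (p : Y) : |D.S x y p y p| ≤ b * D.k x p p := by
  have h1 := hb.hS0 y p y p
  rw [nrm_one hy] at h1
  calc |D.S x y p y p| ≤ b * 1 * nrm (D.k x) p * 1 * nrm (D.k x) p := h1
    _ = b * nrm (D.k x) p ^ 2 := by ring
    _ = b * D.k x p p := by rw [nrm_sq hk]

/-- positivity of the fibre form. -/
lemma fib_pos {b η : ℝ} (N : NG D.h D.k D.S D.A x) (hb : BdN D.h D.k D.S D.A x b)
    (hη : 0 < η) (hη1 : η ≤ 1) (hηb : η ^ 2 * b ≤ 1 / 100) (hy : D.k x y y = 1) :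
    ∀ a, a ≠ 0 → 0 < fibL D.k D.S η (x, y) a a := by
  intro a ha
  have hk : ∀ a, 0 ≤ D.k x a a := by
    intro a
    by_cases h : a = 0
    · simp [h]
    · exact (N.hm.pos.self_of_nhds a h).le
  have h0 := N.hm.pos.self_of_nhds a ha
  have h1 := S_bound hk hb hy a
  rw [fibL_apply]
  simp only [hy]
  have h2 : D.S x y a y a ≤ b * D.k x a a := le_trans (le_abs_self _) h1
  have h3 : η ^ 4 * D.S x y a y a ≤ η ^ 2 * ((1/100) * D.k x a a) := by
    calc η ^ 4 * D.S x y a y a ≤ η ^ 4 * (b * D.k x a a) := mul_le_mul_of_nonneg_left h2 (by positivity)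
      _ = η ^ 2 * ((η ^ 2 * b) * D.k x a a) := by ring
      _ ≤ η ^ 2 * ((1/100) * D.k x a a) := by
        apply mul_le_mul_of_nonneg_left _ (by positivity)
        exact mul_le_mul_of_nonneg_right hηb h0.le
  have h4 : 0 ≤ (1 - η ^ 2) * (D.k x y a * D.k x y a) := by
    apply mul_nonneg
    · nlinarith only [hη1, hη]
    · exact mul_self_nonneg _
  have h5 : 0 < η ^ 2 * D.k x a a := by positivity
  simp only [one_pow, inv_one, one_mul, mul_one]
  linarith only [h3, h4, h5]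

/-- Riesz representation on `y^⊥`. -/
lemma riesz_tan {η : ℝ} (N : NG D.h D.k D.S D.A x) (hη : 0 < η)
    (hy : D.k x y y = 1) (hpos : ∀ a, a ≠ 0 → 0 < fibL D.k D.S η (x, y) a a) (l : Y → ℝ)
    (h1 : ∀ a b, l (a + b) = l a + l b) (h2 : ∀ (r : ℝ) a, l (r • a) = r * l a) :
    ∃ t, D.k x y t = 0 ∧ ∀ ξ, D.k x y ξ = 0 → MM D.k D.S η x y t ξ = l ξ := by
  obtain ⟨t, ht⟩ := riesz_fun hpos (fun ξ => η ^ 2 * l (ξ - D.k x y ξ • y))
    (by
      intro a b
      have : a + b - D.k x y (a + b) • y = (a - D.k x y a • y) + (b - D.k x y b • y) := by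
        rw [map_add]; module
      simp only [this, h1]; ring)
    (by
      intro r a
      have : r • a - D.k x y (r • a) • y = r • (a - D.k x y a • y) := by
        rw [map_smul, smul_eq_mul]; module
      simp only [this, h2]; ring)
  have hl0 : l 0 = 0 := by
    have := h2 0 0
    simpa using this
  have hty : D.k x y t = 0 := by
    have e1 := ht y
    have e2 : y - D.k x y y • y = 0 := by rw [hy]; module
    simp only [e2, hl0, mul_zero] at e1
    rw [(N_eqs N hy 0 0 t y (δ := η)).1] at e1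
    have e3 : D.S x y t y y = 0 := by rw [N.S2.self_of_nhds, S_self N]
    have e4 : D.k x t y = D.k x y t := N.hm.symm.self_of_nhds t y
    rw [e3, e4, hy] at e1
    linarith
  refine ⟨t, hty, fun ξ hξ => ?_⟩
  have e1 := ht ξ
  rw [N_tan N hy (Or.inl hty), hξ] at e1
  have hη2 : η ^ 2 ≠ 0 := by positivity
  have e2 := mul_left_cancel₀ hη2 e1
  rw [e2]
  simp

/-- additivity of `OmV` in the second argument. -/
lemma OmV_add_right {A : V → V →L[ℝ] Y →L[ℝ] Y} (ζ a b : V) (p : Y) :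
    OmV A x ζ (a + b) p = OmV A x ζ a p + OmV A x ζ b p := by
  simp only [OmV, map_add, _root_.add_apply, _root_.sub_apply, ContinuousLinearMap.comp_apply]
  abel

lemma OmV_smul_right {A : V → V →L[ℝ] Y →L[ℝ] Y} (ζ : V) (r : ℝ) (a : V) (p : Y) :
    OmV A x ζ (r • a) p = r • OmV A x ζ a p := by
  simp only [OmV, map_smul, _root_.add_apply, _root_.sub_apply, _root_.smul_apply,
    ContinuousLinearMap.comp_apply]
  module

lemma MM_add (δ : ℝ) (a b c : Y) : MM D.k D.S δ x y a (b + c) = MM D.k D.S δ x y a b + MM D.k D.S δ x y a c := by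
  simp only [MM, map_add]; ring

lemma MM_smul (δ r : ℝ) (a b : Y) : MM D.k D.S δ x y a (r • b) = r * MM D.k D.S δ x y a b := by
  simp only [MM, map_smul, smul_eq_mul]; ring

lemma dS4_smul {S : V → Y →L[ℝ] Y →L[ℝ] Y →L[ℝ] Y →L[ℝ] ℝ} (r : ℝ) (ζ : V) (a b c d : Y) :
    dS4 S x (r • ζ) a b c d = r * dS4 S x ζ a b c d := by
  simp [dS4]

lemma exists_HF (N : NG D.h D.k D.S D.A x) (δ : ℝ) (ζ : V) (p : Y) (ζ' : V) (q : Y) :
    ∃ t, IsHF D.h D.k D.S D.A δ x y ζ p ζ' q t := by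
  refine riesz_fun N.hh.pos.self_of_nhds _ ?_ ?_
  · intro a b
    simp only [dS4_add, OmV_add_right, MM_add]; ring
  · intro r a
    simp only [dS4_smul, OmV_smul_right, MM_smul]; ring

lemma dS4_add4 (N : NG D.h D.k D.S D.A x) (ζ : V) (a b c d : Y) :
    dS4 D.S x ζ a b y (c + d) = dS4 D.S x ζ a b y c + dS4 D.S x ζ a b y d := by
  have hs : ∀ a b c d, DifferentiableAt ℝ (fun x' => D.S x' a b c d) x := fun a b c d =>
    ((((N.hS.clm_apply contDiffAt_const).clm_apply contDiffAt_const).clm_apply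
      contDiffAt_const).clm_apply contDiffAt_const).differentiableAt (by norm_num)
  simp only [dS4, map_add]
  rw [fderiv_fun_add (hs _ _ _ _) (hs _ _ _ _)]
  simp

lemma dS4_smul4 (N : NG D.h D.k D.S D.A x) (ζ : V) (r : ℝ) (a b c : Y) :
    dS4 D.S x ζ a b y (r • c) = r * dS4 D.S x ζ a b y c := by
  have hs : ∀ a b c d, DifferentiableAt ℝ (fun x' => D.S x' a b c d) x := fun a b c d =>
    ((((N.hS.clm_apply contDiffAt_const).clm_apply contDiffAt_const).clm_apply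
      contDiffAt_const).clm_apply contDiffAt_const).differentiableAt (by norm_num)
  simp only [dS4, map_smul, smul_eq_mul]
  rw [fderiv_const_mul (hs _ _ _ _)]
  simp

lemma exists_VF (N : NG D.h D.k D.S D.A x) {δ : ℝ} (hδ : 0 < δ)
    (hy : D.k x y y = 1) (hpos : ∀ a, a ≠ 0 → 0 < fibL D.k D.S δ (x, y) a a)
    (ζ : V) (p : Y) (ζ' : V) (q : Y) :
    ∃ t, IsVF D.k D.S δ x y ζ p ζ' q t := by
  refine riesz_tan N hδ hy hpos (fun ξ => -(1/2) * δ ^ 2 * (dS4 D.S x ζ y q y ξ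
    + dS4 D.S x ζ' y p y ξ + 2 * D.S x y q p ξ + 2 * D.S x y p q ξ)) ?_ ?_
  · intro a b
    simp only [dS4_add4 N, map_add]; ring
  · intro r a
    simp only [dS4_smul4 N, map_smul, smul_eq_mul]; ring

/-- condition (T) in normal gauge. -/
def BD.TN (D : BD V Y) (x : V) (c : ℝ) : Prop :=
  ∀ (X U : V) (y p : Y), D.h x X X = 1 → D.h x X U = 0 → D.k x y y = 1 → D.k x y p = 0 →
    ∀ t : V, (∀ ξ, D.h x t ξ = D.k x y (OmV D.A x X ξ p)) →
    c * (D.h x U U + D.k x p p) ≤ num D.h x X U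
      + D.k x y (DOmV D.h D.A x X X U p) + (1/4) * D.h x t t + (1/2) * hS4 D.h D.S x X X y p y p

lemma DOmV_smul (N : NG D.h D.k D.S D.A x) (X : V) (r : ℝ) (Z : V) (p : Y) :
    DOmV D.h D.A x X X (r • Z) p = r • DOmV D.h D.A x X X Z p := by
  have hA2 := N.hA
  have d0 : ∀ ζ ζ', DifferentiableAt ℝ (fun x' => OmV D.A x' ζ ζ') x := by
    intro ζ ζ'
    have dA := hA2.differentiableAt (by norm_num : (2 : WithTop ℕ∞) ≠ 0)
    have d1 : ∀ a b, DifferentiableAt ℝ (fun x' => fderiv ℝ D.A x' a b) x := fun a b =>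
      (((diff_fderiv hA2).clm_apply (differentiableAt_const _)).clm_apply (differentiableAt_const _))
    have a1 : ∀ a, DifferentiableAt ℝ (fun x' => D.A x' a) x := fun a => dA.clm_apply (differentiableAt_const a)
    exact (((d1 ζ ζ').sub (d1 ζ' ζ)).add ((a1 ζ).clm_comp (a1 ζ'))).sub ((a1 ζ').clm_comp (a1 ζ))
  have e1 : (fun x' => OmV D.A x' X (r • Z)) = fun x' => r • OmV D.A x' X Z := by
    funext x'
    ext q
    rw [OmV_smul_right]
    rfl
  have e2 : Gam D.h x X (r • Z) = r • Gam D.h x X Z := by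
    apply Gam_unique N.hh
    intro w
    rw [chr_apply N.hh.smooth]
    simp only [map_smul, _root_.smul_apply, smul_eq_mul]
    rw [G_Gam N.hh, chr_apply N.hh.smooth]
    have s2 : ∀ u v, DifferentiableAt ℝ (fun z' => D.h z' u v) x := fun u v =>
      (smooth2 N.hh.smooth u v).differentiableAt (by norm_num)
    simp only [dG, map_smul, _root_.smul_apply, smul_eq_mul]
    rw [fderiv_const_mul (s2 _ _), fderiv_const_mul (s2 _ _)]
    simp
    ring
  have e3 : ∀ a : V, OmV D.A x a (r • Z) = r • OmV D.A x a Z := by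
    intro a
    ext q
    rw [OmV_smul_right]
    rfl
  have e4 : OmV D.A x X (r • Gam D.h x X Z) = r • OmV D.A x X (Gam D.h x X Z) := by
    ext q
    rw [OmV_smul_right]
    rfl
  rw [DOmV, DOmV, e1, e2, e3, e3, e4, fderiv_fun_const_smul (d0 _ _)]
  simp only [N.A0, _root_.zero_apply, ContinuousLinearMap.zero_comp, ContinuousLinearMap.comp_zero,
    add_zero, sub_zero, _root_.sub_apply, _root_.smul_apply]
  module

lemma hS4_quad (N : NG D.h D.k D.S D.A x) (X : V) (r : ℝ) (p : Y) :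
    hS4 D.h D.S x X X y (r • p) y (r • p) = r ^ 2 * hS4 D.h D.S x X X y p y p := by
  have hs : ∀ a b c d, ContDiffAt ℝ 2 (fun x' => D.S x' a b c d) x := fun a b c d =>
    (((N.hS.clm_apply contDiffAt_const).clm_apply contDiffAt_const).clm_apply
      contDiffAt_const).clm_apply contDiffAt_const
  have e : (fun x' => D.S x' y (r • p) y (r • p)) = fun x' => r ^ 2 * D.S x' y p y p := by
    funext x'
    simp only [map_smul, _root_.smul_apply, smul_eq_mul]; ring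
  rw [hS4, hS4, ddS4_eq N.hS, ddS4_eq N.hS, dS4, dS4, e]
  have e1 : fderiv ℝ (fun x' => r ^ 2 * D.S x' y p y p) =ᶠ[𝓝 x]
      fun x' => r ^ 2 • fderiv ℝ (fun x' => D.S x' y p y p) x' := by
    filter_upwards [ev_diff (hs y p y p)] with x' hx'
    rw [fderiv_const_mul hx']
  rw [e1.fderiv_eq (𝕜 := ℝ), e1.self_of_nhds, fderiv_fun_const_smul (diff_fderiv (hs y p y p))]
  simp
  ring

/-- consequences of (T) for an orthonormal pair. -/
lemma pair_facts {b c η : ℝ} (hc : 0 < c) (H : D.Good x) (N : NG D.h D.k D.S D.A x)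
    (hb : BdN D.h D.k D.S D.A x b) (hT : D.TN x c) (hηb : η ^ 2 * b ≤ 1 / 100)
    {X Z : V} {T : Y} (hX : D.h x X X = 1) (hZ : D.h x Z Z = 1) (hXZ : D.h x X Z = 0)
    (hy : D.k x y y = 1) (hyT : D.k x y T = 0) (hTT : MM D.k D.S η x y T T = 1) {t1 : V}
    (ht1 : ∀ ξ, D.h x t1 ξ = D.k x T (OmV D.A x X ξ y)) :
    c ≤ num D.h x X Z ∧ |num D.h x X Z| ≤ 1000 * b ^ 3 ∧
    |(- D.k x (DOmV D.h D.A x X X Z y) T)| ≤ 1000 * b ^ 3 ∧
    |(1/2) * hS4 D.h D.S x X X y T y T + (1/4) * D.h x t1 t1| ≤ 1000 * b ^ 3 ∧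
    c ^ 2 ≤ 4 * num D.h x X Z * ((1/2) * hS4 D.h D.S x X X y T y T + (1/4) * D.h x t1 t1)
      - (- D.k x (DOmV D.h D.A x X X Z y) T) ^ 2 := by
  have hk : ∀ a, 0 ≤ D.k x a a := by
    intro a
    by_cases h : a = 0
    · simp [h]
    · exact (N.hm.pos.self_of_nhds a h).le
  have hh0 : ∀ a, 0 ≤ D.h x a a := by
    intro a
    by_cases h : a = 0
    · simp [h]
    · exact (N.hh.pos.self_of_nhds a h).le
  have b1 := hb.one
  have sk := N.hm.symm.self_of_nhds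
  -- the length of `T`
  obtain ⟨κ, hκ⟩ : ∃ κ, κ = D.k x T T := ⟨_, rfl⟩
  have hS := S_bound hk hb hy T
  have hκ1 : (99/100) * κ ≤ 1 ∧ 1 ≤ (101/100) * κ := by
    have e : κ - η ^ 2 * D.S x y T y T = 1 := by rw [hκ]; exact hTT
    have e1 : |η ^ 2 * D.S x y T y T| ≤ (1/100) * κ := by
      rw [abs_mul, abs_of_nonneg (sq_nonneg η)]
      calc η ^ 2 * |D.S x y T y T| ≤ η ^ 2 * (b * D.k x T T) := mul_le_mul_of_nonneg_left hS (sq_nonneg η)
        _ = (η ^ 2 * b) * κ := by rw [hκ]; ring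
        _ ≤ (1/100) * κ := mul_le_mul_of_nonneg_right hηb (by rw [hκ]; exact hk T)
    have := abs_le.mp e1
    constructor <;> linarith only [e, this, this.1, this.2]
  have hκ0 : 0 ≤ κ := by rw [hκ]; exact hk T
  have hnT : nrm (D.k x) T ≤ 11/10 := by
    rw [nrm, ← hκ]
    rw [show (11/10 : ℝ) = √((11/10) ^ 2) by rw [Real.sqrt_sq (by norm_num)]]
    apply Real.sqrt_le_sqrt
    nlinarith only [hκ1, hκ1.1]
  have hnT0 := nrm_nonneg (D.k x) T
  obtain ⟨K, hK⟩ : ∃ K, K = num D.h x X Z := ⟨_, rfl⟩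
  obtain ⟨l, hl⟩ : ∃ l, l = D.k x y (DOmV D.h D.A x X X Z T) := ⟨_, rfl⟩
  obtain ⟨q, hq⟩ : ∃ q, q = (1/2) * hS4 D.h D.S x X X y T y T + (1/4) * D.h x t1 t1 := ⟨_, rfl⟩
  have hl' : - D.k x (DOmV D.h D.A x X X Z y) T = l := by rw [DOmV_skew H N, hl]; ring
  have ht1' : ∀ ξ, D.h x (-t1) ξ = D.k x y (OmV D.A x X ξ T) := by
    intro ξ
    rw [map_neg, _root_.neg_apply, ht1, sk T, OmV_skew N]
    ring
  -- the quadratic inequality
  have quad : ∀ t s : ℝ, c * (t ^ 2 + s ^ 2 * κ) ≤ K * t ^ 2 + l * (t * s) + q * s ^ 2 := by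
    intro t s
    have h1 := hT X (t • Z) y (s • T) hX (by rw [map_smul, hXZ, smul_zero]) hy
      (by rw [map_smul, hyT, smul_zero]) (s • (-t1)) (by
        intro ξ
        rw [map_smul, _root_.smul_apply, ht1' ξ, map_smul, map_smul, smul_eq_mul])
    have e1 : num D.h x X (t • Z) = t ^ 2 * num D.h x X Z := by
      have := Pool.Agent.Helper93.HP.num_comb N.hh 1 0 0 t X Z
      simpa using this
    rw [e1, DOmV_smul N, hS4_quad N] at h1
    simp only [map_smul, map_neg, _root_.smul_apply, _root_.neg_apply, smul_eq_mul, hZ] at h1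
    rw [← hK, ← hl, ← hκ] at h1
    rw [hq]
    linarith only [h1, h1]
  have hKc : c ≤ K := by
    have := quad 1 0
    simp at this
    exact this
  have hqc : c * κ ≤ q := by
    have := quad 0 1
    simp at this
    exact this
  have hdisc : l ^ 2 ≤ 4 * (K - c/2) * (q - c * κ) := by
    have h1 := quad (-l) (2 * (K - c/2))
    have hKp : 0 < K - c/2 := by linarith only [hc, hKc]
    have h2 : 0 ≤ (K - c/2) * (4 * (K - c/2) * (q - c * κ) - l ^ 2) := by nlinarith only [h1, hc, sq_nonneg l]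
    have h3 := (mul_nonneg_iff_of_pos_left hKp).mp h2
    linarith only [h3]
  have hb3 : b ≤ b ^ 3 := by nlinarith only [b1, sq_nonneg b, mul_pos (show (0:ℝ) < b by linarith) (show (0:ℝ) < b by linarith only [b1])]
  have hb2 : b ^ 2 ≤ b ^ 3 := by nlinarith only [b1, sq_nonneg b]
  have hb0 : 0 ≤ b := by linarith only [b1]
  -- bounds
  have bK : |K| ≤ b := by
    have := hb.hnum X Z
    rw [nrm_one hX, nrm_one hZ] at this
    rw [hK]; simpa using this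
  have bl : |l| ≤ b * (11/10) := by
    have := hb.hdOm X Z y T
    rw [nrm_one hX, nrm_one hZ, nrm_one hy] at this
    rw [hl]
    calc _ ≤ _ := this
      _ = b * nrm (D.k x) T := by ring
      _ ≤ b * (11/10) := mul_le_mul_of_nonneg_left hnT hb0
  have bt : D.h x t1 t1 ≤ b ^ 2 * (11/10) ^ 2 := by
    have h1 := hb.hOm X t1 T y
    rw [← ht1, nrm_one hX, nrm_one hy] at h1
    have h2 : nrm (D.h x) t1 ^ 2 = D.h x t1 t1 := nrm_sq hh0 t1
    have h0 := nrm_nonneg (D.h x) t1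
    have h3 : nrm (D.h x) t1 ^ 2 ≤ b * nrm (D.h x) t1 * nrm (D.k x) T := by
      rw [h2]
      calc D.h x t1 t1 ≤ |D.h x t1 t1| := le_abs_self _
        _ ≤ _ := h1
        _ = _ := by ring
    have h4 : nrm (D.h x) t1 ≤ b * (11/10) := by
      by_contra hcon
      push Not at hcon
      have h5 : b * nrm (D.k x) T ≤ b * (11/10) := mul_le_mul_of_nonneg_left hnT hb0
      have h6 : 0 < nrm (D.h x) t1 := lt_of_le_of_lt (by positivity) hcon
      nlinarith only [h3, hcon, b1, h0, h5]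
    rw [← h2]
    calc nrm (D.h x) t1 ^ 2 ≤ (b * (11/10)) ^ 2 := pow_le_pow_left₀ h0 h4 2
      _ = _ := by ring
  have bS : |hS4 D.h D.S x X X y T y T| ≤ b * (11/10) ^ 2 := by
    have := hb.hS2 X y T y T
    rw [nrm_one hX, nrm_one hy] at this
    calc _ ≤ _ := this
      _ = b * nrm (D.k x) T ^ 2 := by ring
      _ ≤ b * (11/10) ^ 2 := mul_le_mul_of_nonneg_left (pow_le_pow_left₀ hnT0 hnT 2) hb0
  have bt0 := hh0 t1
  refine ⟨hK ▸ hKc, ?_, ?_, ?_, ?_⟩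
  · rw [← hK]; linarith only [b1, hb3, bK]
  · rw [hl']; linarith only [b1, hb3, bl]
  · rw [abs_le] at bS ⊢
    constructor <;> linarith only [b1, hb3, bS, bt0, hb2, bt, bS.1, bS.2]
  · rw [hl', ← hK, ← hq]
    nlinarith only [hdisc, hc, hκ0, hKc, hκ1, hqc, mul_nonneg (sub_nonneg.2 hKc) (sub_nonneg.2 hqc), mul_pos hc hc, hκ1.2,
      mul_nonneg (mul_nonneg hc.le hκ0) (sub_nonneg.2 hKc)]

/-- a number `η₀` which is good for all data with given bounds. -/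
lemma eta_exists {b c : ℝ} (hb : 1 ≤ b) (hc : 0 < c) :
    ∃ δ₀ > 0, δ₀ ≤ 1 ∧ δ₀ ^ 2 * b ≤ 1 / 100 ∧ ∀ δ, 0 < δ → δ ≤ δ₀ →
      ∀ K l1 l2 q1 q2 xx z m1 m2 : ℝ,
      |K| ≤ 1000 * b ^ 3 → |l1| ≤ 1000 * b ^ 3 → |l2| ≤ 1000 * b ^ 3 → |q1| ≤ 1000 * b ^ 3 →
      |q2| ≤ 1000 * b ^ 3 → c ≤ K → c ^ 2 ≤ 4 * K * q1 - l1 ^ 2 → c ^ 2 ≤ 4 * K * q2 - l2 ^ 2 →
      xx * z = m1 * m2 → xx ^ 2 + z ^ 2 + m1 ^ 2 + m2 ^ 2 = 1 →
      0 < K * xx ^ 2 + (1/4) * (δ ^ 2)⁻¹ * z ^ 2 + δ * xx * (m1 * l1 + m2 * l2)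
        + δ ^ 2 * (m1 ^ 2 * q1 + m2 ^ 2 * q2) - 1000 * b ^ 3 * Er δ xx z m1 m2 := by
  have hb3 : 1 ≤ b ^ 3 := one_le_pow₀ hb
  obtain ⟨δ₀, h0, H⟩ := small_eta (B := 1000 * b ^ 3) (c := min c (c ^ 2)) (by linarith)
    (by positivity)
  have hb0 : 0 < b := by linarith only [hb]
  refine ⟨min δ₀ (min 1 (1 / (10 * b))), by positivity, ?_, ?_, ?_⟩
  · exact (min_le_right _ _).trans (min_le_left _ _)
  · have e1 : min δ₀ (min 1 (1 / (10 * b))) ≤ 1 / (10 * b) := (min_le_right _ _).trans (min_le_right _ _)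
    have e0 : 0 < min δ₀ (min 1 (1 / (10 * b))) := by positivity
    calc min δ₀ (min 1 (1 / (10 * b))) ^ 2 * b ≤ (1 / (10 * b)) ^ 2 * b :=
          mul_le_mul_of_nonneg_right (pow_le_pow_left₀ e0.le e1 2) hb0.le
      _ = 1 / (100 * b) := by field_simp; norm_num
      _ ≤ 1 / 100 := by
        apply one_div_le_one_div_of_le (by norm_num)
        linarith only [hb]
  · intro δ hδ hδ' K l1 l2 q1 q2 xx z m1 m2 a1 a2 a3 a4 a5 a6 a7 a8 a9 a10
    exact H δ hδ (hδ'.trans (min_le_left _ _)) K l1 l2 q1 q2 xx z m1 m2 a1 a2 a3 a4 a5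
      ((min_le_left _ _).trans a6) ((min_le_right _ _).trans a7) ((min_le_right _ _).trans a8) a9 a10

/-- positive curvature of the planes in principal position. -/
lemma pair_pos {b c η : ℝ} (hc : 0 < c) (H : D.Good x) (N : NG D.h D.k D.S D.A x)
    (hb : BdN D.h D.k D.S D.A x b) (hT : D.TN x c)
    (hη : ∀ K l1 l2 q1 q2 xx z m1 m2 : ℝ,
      |K| ≤ 1000 * b ^ 3 → |l1| ≤ 1000 * b ^ 3 → |l2| ≤ 1000 * b ^ 3 → |q1| ≤ 1000 * b ^ 3 →
      |q2| ≤ 1000 * b ^ 3 → c ≤ K → c ^ 2 ≤ 4 * K * q1 - l1 ^ 2 → c ^ 2 ≤ 4 * K * q2 - l2 ^ 2 →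
      xx * z = m1 * m2 → xx ^ 2 + z ^ 2 + m1 ^ 2 + m2 ^ 2 = 1 →
      0 < K * xx ^ 2 + (1/4) * (η ^ 2)⁻¹ * z ^ 2 + η * xx * (m1 * l1 + m2 * l2)
        + η ^ 2 * (m1 ^ 2 * q1 + m2 ^ 2 * q2) - 1000 * b ^ 3 * Er η xx z m1 m2)
    {X Z : V} {U T : Y} {ca sa cb sb : ℝ} (F : Fr D.h D.k D.S η b x y X Z U T ca sa cb sb) :
    0 < num (D.G η) (x, y) (ca • X, (sa / η) • U) (cb • Z, (sb / η) • T) := by
  have hpos := fib_pos N hb F.δ0 F.δ1 F.δb F.yy
  have hh := N.hh.pos.self_of_nhds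
  have hsy := N.hh.symm.self_of_nhds
  -- the auxiliary vectors
  obtain ⟨th, h1⟩ := exists_HF (y := y) N η (ca • X) ((sa / η) • U) (cb • Z) ((sb / η) • T)
  obtain ⟨thu, h2⟩ := exists_HF (y := y) N η (ca • X) ((sa / η) • U) (ca • X) ((sa / η) • U)
  obtain ⟨thv, h3⟩ := exists_HF (y := y) N η (cb • Z) ((sb / η) • T) (cb • Z) ((sb / η) • T)
  obtain ⟨t, h4⟩ := exists_VF N F.δ0 F.yy hpos (ca • X) ((sa / η) • U) (cb • Z) ((sb / η) • T)
  obtain ⟨tu, h5⟩ := exists_VF N F.δ0 F.yy hpos (ca • X) ((sa / η) • U) (ca • X) ((sa / η) • U)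
  obtain ⟨tv, h6⟩ := exists_VF N F.δ0 F.yy hpos (cb • Z) ((sb / η) • T) (cb • Z) ((sb / η) • T)
  obtain ⟨t1, ht1⟩ := riesz_fun hh (fun ξ => D.k x T (OmV D.A x X ξ y))
    (fun a b => by simp only [OmV_add_right, map_add])
    (fun r a => by simp only [OmV_smul_right, map_smul, smul_eq_mul])
  obtain ⟨t2, ht2⟩ := riesz_fun hh (fun ξ => D.k x U (OmV D.A x Z ξ y))
    (fun a b => by simp only [OmV_add_right, map_add])
    (fun r a => by simp only [OmV_smul_right, map_smul, smul_eq_mul])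
  have f1 := Spec.FN_lower N hb F
  have f2 := Spec.hor_lower N hb F h1 h2 h3 ht1 ht2
  have f3 := Spec.ver_lower N hb F h4 h5 h6
  have p1 : D.k x y ((sa / η) • U) = 0 := by rw [map_smul, F.yU, smul_zero]
  have p2 : D.k x y ((sb / η) • T) = 0 := by rw [map_smul, F.yT, smul_zero]
  have key := num_SB N F.yy hpos (ca • X) (cb • Z) p1 p2 h1 h2 h3 h4 h5 h6
  obtain ⟨g1, g2, g3, g4, g5⟩ := pair_facts hc H N hb hT F.δb F.XX F.ZZ F.XZ F.yy F.yT F.TT ht1
  obtain ⟨g1', g2', g3', g4', g5'⟩ := pair_facts hc H N hb hT F.δb F.ZZ F.XX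
    (by rw [hsy]; exact F.XZ) F.yy F.yU F.UU ht2
  have hnum : num D.h x Z X = num D.h x X Z := by
    have := Pool.Agent.Helper93.HP.num_comb N.hh 0 1 1 0 X Z
    simpa using this
  rw [hnum] at g1' g2' g5'
  have fin := hη (num D.h x X Z) (- D.k x (DOmV D.h D.A x X X Z y) T)
    (- D.k x (DOmV D.h D.A x Z Z X y) U)
    ((1/2) * hS4 D.h D.S x X X y T y T + (1/4) * D.h x t1 t1)
    ((1/2) * hS4 D.h D.S x Z Z y U y U + (1/4) * D.h x t2 t2)
    (ca * cb) (sa * sb) (ca * sb) (sa * cb) g2 g3 g3' g4 g4' g1 g5 g5' (by ring)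
    (by
      calc (ca * cb) ^ 2 + (sa * sb) ^ 2 + (ca * sb) ^ 2 + (sa * cb) ^ 2
          = (ca ^ 2 + sa ^ 2) * (cb ^ 2 + sb ^ 2) := by ring
        _ = 1 := by rw [F.a1, F.b1, one_mul])
  have hE : 0 ≤ Er η (ca * cb) (sa * sb) (ca * sb) (sa * cb) := by
    have := F.δ0
    rw [Er]
    (clear * - this; positivity)
  have hb0 : 0 ≤ b ^ 3 := by
    have := hb.one
    positivity
  have hbE : 0 ≤ b ^ 3 * Er η (ca * cb) (sa * sb) (ca * sb) (sa * cb) := mul_nonneg hb0 hE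
  rw [BD.G, key]
  refine lt_of_lt_of_le fin ?_
  linarith only [f1, f2, f3, hbE]

/-- **The collapse theorem in normal gauge.** -/
theorem collapse_NG {b c η : ℝ} (hV : 2 ≤ finrank ℝ V) (hY : 3 ≤ finrank ℝ Y) (hc : 0 < c)
    (H : D.Good x) (N : NG D.h D.k D.S D.A x)
    (hb : BdN D.h D.k D.S D.A x b) (hT : D.TN x c) (hη0 : 0 < η) (hη1 : η ≤ 1)
    (hηb : η ^ 2 * b ≤ 1 / 100)
    (hη : ∀ K l1 l2 q1 q2 xx z m1 m2 : ℝ,
      |K| ≤ 1000 * b ^ 3 → |l1| ≤ 1000 * b ^ 3 → |l2| ≤ 1000 * b ^ 3 → |q1| ≤ 1000 * b ^ 3 →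
      |q2| ≤ 1000 * b ^ 3 → c ≤ K → c ^ 2 ≤ 4 * K * q1 - l1 ^ 2 → c ^ 2 ≤ 4 * K * q2 - l2 ^ 2 →
      xx * z = m1 * m2 → xx ^ 2 + z ^ 2 + m1 ^ 2 + m2 ^ 2 = 1 →
      0 < K * xx ^ 2 + (1/4) * (η ^ 2)⁻¹ * z ^ 2 + η * xx * (m1 * l1 + m2 * l2)
        + η ^ 2 * (m1 ^ 2 * q1 + m2 ^ 2 * q2) - 1000 * b ^ 3 * Er η xx z m1 m2)
    (hy : D.k x y y = 1) {u v : V × Y} (hu : D.k x y u.2 = 0) (hv : D.k x y v.2 = 0)
    (huv : LinearIndependent ℝ ![u, v]) : 0 < num (D.G η) (x, y) u v := by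
  have hpos := fib_pos N hb hη0 hη1 hηb hy
  have sk := N.hm.symm.self_of_nhds
  have sS := N.S2.self_of_nhds
  -- the form `M` as a continuous bilinear form
  obtain ⟨M, hM⟩ : ∃ M : Y →L[ℝ] Y →L[ℝ] ℝ, ∀ p q, M p q = MM D.k D.S η x y p q :=
    ⟨D.k x - (η ^ 2) • (D.S x y).flip y, fun p q => by simp [MM]⟩
  obtain ⟨X, Z, U, T, ca, sa, cb, sb, a, b', c', d, e1, e2, e3, e4, e5, e6, e7, e8, e9, e10, e11,
    e12, e13⟩ := Spec.principalM (y := y) (k := D.k x) (M := M) (Hf := D.h x) hV hY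
    N.hh.symm.self_of_nhds N.hh.pos.self_of_nhds hy
    (fun p q => by rw [hM, hM, MM, MM, sk p q, sS y p y q])
    (fun p hp1 hp2 => by
      rw [hM]
      have h1 := hpos p hp2
      rw [N_tan N hy (Or.inl hp1)] at h1
      exact pos_of_mul_pos_right h1 (by positivity))
    hη0 hu hv huv
  have F : Fr D.h D.k D.S η b x y X Z U T ca sa cb sb :=
    { δ0 := hη0
      δ1 := hη1
      δb := hηb
      yy := hy
      XX := e1
      ZZ := e2
      XZ := e3
      yU := e4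
      yT := e5
      UU := by rw [← hM]; exact e6
      TT := by rw [← hM]; exact e7
      UT := by rw [← hM]; exact e8
      a1 := e9
      b1 := e10 }
  have key := pair_pos hc H N hb hT hη F
  have hy0 : y ≠ 0 := by
    rintro rfl
    simp at hy
  have hmet : MetAt (D.G η) (x, y) := Spec.metAt_G H hy0 hpos
  rw [e12, e13, Pool.Agent.Helper93.HP.num_comb hmet]
  have : 0 < (a * d - b' * c') ^ 2 := by (clear * - e11; positivity)
  (clear * - e11 key; positivity)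

end

end Pool.Agent.Helper20.MB
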