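import Pool.Agent.Helper20.M8.SphDefs

/-!
# Sphere bundle data, the condition (T) and the collapse theorem: definitions

`V` is the base, `Y` the fibre (a neighbourhood of `x` in `V` is used). A datum `D : BD V Y`
consists of a metric `h` on the base, a connection form `A`, a fibre metric `k`, and a family `S`
of forms on `Λ² Y`.
-/

open Filter Metric Module Set
open scoped Topology ContDiff RealInnerProductSpace Manifold

set_option maxSynthPendingDepth 3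

namespace Pool.Agent.Helper20.MB
open Pool.Agent.Helper20.PC Pool.Agent.Helper20.HP Pool.Agent.Helper20.M8

/-- bundle data. -/
structure BD (V Y : Type*) [NormedAddCommGroup V] [NormedSpace ℝ V] [NormedAddCommGroup Y]
    [NormedSpace ℝ Y] where
  h : V → V →L[ℝ] V →L[ℝ] ℝ
  A : V → V →L[ℝ] Y →L[ℝ] Y
  k : V → Y →L[ℝ] Y →L[ℝ] ℝ
  S : V → Y →L[ℝ] Y →L[ℝ] Y →L[ℝ] Y →L[ℝ] ℝ

/-- the states `(x, X, U, y₁, y₂, y₃, y₄)`. -/
abbrev St (V Y : Type*) := V × V × V × Y × Y × Y × Y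

/-- derivative of a function along a vector field. -/
noncomputable def lie {E F : Type*} [NormedAddCommGroup E] [NormedSpace ℝ E] [NormedAddCommGroup F]
    [NormedSpace ℝ F] (X : E → E) (f : E → F) (s : E) : F := fderiv ℝ f s (X s)

section
variable {V Y : Type*} [NormedAddCommGroup V] [NormedSpace ℝ V] [NormedAddCommGroup Y] [NormedSpace ℝ Y]

/-- the metric of the sphere bundle (on `V × (Y ∖ 0)`):
`h_x(u,u) + N(Λ,Λ)`, `Λ = p + A_x(u) y`,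
`N(p,p) = ((1-η²) k(y,p)² + η² k(y,y) k(p,p) - η⁴ S(y,p;y,p)) / k(y,y)²`. -/
noncomputable def BD.G (D : BD V Y) (η : ℝ) : V × Y → (V × Y) →L[ℝ] (V × Y) →L[ℝ] ℝ :=
  SB D.h D.k D.S D.A η

/-- the geodesic spray with parallel transport of `U` and of the `yᵢ`. -/
noncomputable def BD.Xs (D : BD V Y) (s : St V Y) : St V Y :=
  (s.2.1, - Gam D.h s.1 s.2.1 s.2.1, - Gam D.h s.1 s.2.1 s.2.2.1, - D.A s.1 s.2.1 s.2.2.2.1,
    - D.A s.1 s.2.1 s.2.2.2.2.1, - D.A s.1 s.2.1 s.2.2.2.2.2.1, - D.A s.1 s.2.1 s.2.2.2.2.2.2)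

/-- the curvature of the connection as a function on the states. -/
noncomputable def BD.OmS (D : BD V Y) (s : St V Y) : ℝ :=
  D.k s.1 s.2.2.2.1 (OmV D.A s.1 s.2.1 s.2.2.1 s.2.2.2.2.1)

/-- `S` as a function on the states. -/
noncomputable def BD.SS (D : BD V Y) (s : St V Y) : ℝ :=
  D.S s.1 s.2.2.2.1 s.2.2.2.2.1 s.2.2.2.2.2.1 s.2.2.2.2.2.2

/-- admissible data near `x`. -/
structure BD.Good (D : BD V Y) (x : V) : Prop where
  hh : ContDiffAt ℝ ∞ D.h x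
  hA : ContDiffAt ℝ ∞ D.A x
  hk : ContDiffAt ℝ ∞ D.k x
  hS : @ContDiffAt ℝ _ V _ _ (Y →L[ℝ] Y →L[ℝ] Y →L[ℝ] Y →L[ℝ] ℝ) (ngk4 Y) (nsk4 Y) ∞ D.S x
  hsymm : ∀ᶠ x' in 𝓝 x, ∀ u v, D.h x' u v = D.h x' v u
  hpos : ∀ᶠ x' in 𝓝 x, ∀ u, u ≠ 0 → 0 < D.h x' u u
  ksymm : ∀ᶠ x' in 𝓝 x, ∀ p q, D.k x' p q = D.k x' q p
  kpos : ∀ᶠ x' in 𝓝 x, ∀ p, p ≠ 0 → 0 < D.k x' p p
  kpar : ∀ᶠ x' in 𝓝 x, ∀ (u : V) (p q : Y),
    fderiv ℝ D.k x' u p q = D.k x' (D.A x' u p) q + D.k x' p (D.A x' u q)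
  S1 : ∀ᶠ x' in 𝓝 x, ∀ a b c d, D.S x' a b c d = - D.S x' b a c d
  S2 : ∀ᶠ x' in 𝓝 x, ∀ a b c d, D.S x' a b c d = D.S x' c d a b

/-- **Condition (T)** at `x` with constant `c`. -/
def BD.TT (D : BD V Y) (x : V) (c : ℝ) : Prop :=
  ∀ (X U : V) (y p : Y), D.h x X X = 1 → D.h x X U = 0 → D.k x y y = 1 → D.k x y p = 0 →
    ∀ t : V, (∀ ξ, D.h x t ξ = D.k x y (OmV D.A x X ξ p)) →
    c * (D.h x U U + D.k x p p) ≤ num D.h x X U
      + lie D.Xs D.OmS (x, X, U, y, p, y, p) + (1/4) * D.h x t t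
      + (1/2) * lie D.Xs (lie D.Xs D.SS) (x, X, U, y, p, y, p)

/-- uniform bounds at `x`. -/
structure BD.Bdd (D : BD V Y) (x : V) (B : ℝ) : Prop where
  num : ∀ X U : V, D.h x X X = 1 → D.h x U U = 1 → |num D.h x X U| ≤ B
  Om : ∀ (X U : V) (y p : Y), D.h x X X = 1 → D.h x U U = 1 → D.k x y y = 1 → D.k x p p = 1 →
    |D.OmS (x, X, U, y, p, y, p)| ≤ B
  dOm : ∀ (X U : V) (y p : Y), D.h x X X = 1 → D.h x U U = 1 → D.k x y y = 1 → D.k x p p = 1 →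
    |lie D.Xs D.OmS (x, X, U, y, p, y, p)| ≤ B
  S : ∀ (a b c d : Y), D.k x a a = 1 → D.k x b b = 1 → D.k x c c = 1 → D.k x d d = 1 →
    |D.S x a b c d| ≤ B
  dS : ∀ (X : V) (a b c d : Y), D.h x X X = 1 → D.k x a a = 1 → D.k x b b = 1 → D.k x c c = 1 →
    D.k x d d = 1 → |lie D.Xs D.SS (x, X, X, a, b, c, d)| ≤ B
  ddS : ∀ (X : V) (a b c d : Y), D.h x X X = 1 → D.k x a a = 1 → D.k x b b = 1 → D.k x c c = 1 →
    D.k x d d = 1 → |lie D.Xs (lie D.Xs D.SS) (x, X, X, a, b, c, d)| ≤ B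

end

end Pool.Agent.Helper20.MB
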