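import Pool.Agent.Helper20.MB.DefsN

/-!
# Change of gauge
-/

open Filter Metric Module Set
open scoped Topology ContDiff RealInnerProductSpace Manifold

set_option maxSynthPendingDepth 3

namespace Pool.Agent.Helper20.MB
open Pool.Agent.Helper20.PC Pool.Agent.Helper20.HP Pool.Agent.Helper20.M8

section
variable {V Y : Type*} [NormedAddCommGroup V] [NormedSpace ℝ V] [NormedAddCommGroup Y] [NormedSpace ℝ Y]
  [FiniteDimensional ℝ Y]

/-- the pullback of a 4-linear form. -/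
noncomputable def pull4 (T : Y →L[ℝ] Y →L[ℝ] Y →L[ℝ] Y →L[ℝ] ℝ) (g : Y →L[ℝ] Y) :
    Y →L[ℝ] Y →L[ℝ] Y →L[ℝ] Y →L[ℝ] ℝ :=
  IsBilinearMap.toContinuousBilinearMap (𝕜 := ℝ) (f := fun a b => (T (g a) (g b)).bilinearComp g g)
    ⟨fun a b c => by ext p q; simp, fun r a b => by ext p q; simp,
     fun a b c => by ext p q; simp, fun r a b => by ext p q; simp⟩

@[simp] lemma pull4_apply (T : Y →L[ℝ] Y →L[ℝ] Y →L[ℝ] Y →L[ℝ] ℝ) (g : Y →L[ℝ] Y) (a b c d : Y) :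
    pull4 T g a b c d = T (g a) (g b) (g c) (g d) := by
  simp [pull4]

/-- the gauge transformation which makes `A` normal at `x₀`. -/
noncomputable def gau (A : V → V →L[ℝ] Y →L[ℝ] Y) (x₀ x : V) : Y →L[ℝ] Y :=
  ContinuousLinearMap.id ℝ Y - A x₀ (x - x₀)
    + (1/2 : ℝ) • ((A x₀ (x - x₀)) ∘L (A x₀ (x - x₀)) - fderiv ℝ A x₀ (x - x₀) (x - x₀))

/-- the data in normal gauge. -/
noncomputable def BD.til (D : BD V Y) (x₀ : V) : BD V Y where
  h := D.h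
  A := fun x => (ContinuousLinearMap.compL ℝ Y Y Y (gau D.A x₀ x).inverse) ∘L
    (((ContinuousLinearMap.compL ℝ Y Y Y).flip (gau D.A x₀ x)) ∘L D.A x + fderiv ℝ (gau D.A x₀) x)
  k := fun x => (D.k x).bilinearComp (gau D.A x₀ x) (gau D.A x₀ x)
  S := fun x => pull4 (D.S x) (gau D.A x₀ x)

lemma BD.til_A (D : BD V Y) (x₀ x u : V) (p : Y) :
    (D.til x₀).A x u p = (gau D.A x₀ x).inverse (D.A x u (gau D.A x₀ x p) + fderiv ℝ (gau D.A x₀) x u p) := by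
  simp [BD.til]

lemma BD.til_k (D : BD V Y) (x₀ x : V) (p q : Y) :
    (D.til x₀).k x p q = D.k x (gau D.A x₀ x p) (gau D.A x₀ x q) := by
  simp [BD.til]

lemma BD.til_S (D : BD V Y) (x₀ x : V) (a b c d : Y) :
    (D.til x₀).S x a b c d
      = D.S x (gau D.A x₀ x a) (gau D.A x₀ x b) (gau D.A x₀ x c) (gau D.A x₀ x d) := by
  simp [BD.til]

/-- the bundle map of the gauge transformation. -/
noncomputable def gmap (A : V → V →L[ℝ] Y →L[ℝ] Y) (x₀ : V) (z : V × Y) : V × Y :=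
  (z.1, gau A x₀ z.1 z.2)

/-- the gauge transformation of the states. -/
noncomputable def gst (A : V → V →L[ℝ] Y →L[ℝ] Y) (x₀ : V) (s : St V Y) : St V Y :=
  (s.1, s.2.1, s.2.2.1, gau A x₀ s.1 s.2.2.2.1, gau A x₀ s.1 s.2.2.2.2.1,
    gau A x₀ s.1 s.2.2.2.2.2.1, gau A x₀ s.1 s.2.2.2.2.2.2)

end

end Pool.Agent.Helper20.MB
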