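import Pool.Agent.Helper20.MB.Defs
import Pool.Agent.Helper20.HP.Data2

/-!
# Bounds in normal gauge
-/

open Filter Metric Module Set
open scoped Topology ContDiff RealInnerProductSpace Manifold

set_option maxSynthPendingDepth 3

namespace Pool.Agent.Helper20.MB
open Pool.Agent.Helper20.PC Pool.Agent.Helper20.HP Pool.Agent.Helper20.M8

section
variable {V Y : Type*} [NormedAddCommGroup V] [NormedSpace ℝ V] [NormedAddCommGroup Y] [NormedSpace ℝ Y]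

/-- the norm of a form. -/
noncomputable def nrm {E : Type*} [NormedAddCommGroup E] [NormedSpace ℝ E] (f : E →L[ℝ] E →L[ℝ] ℝ)
    (a : E) : ℝ := √(f a a)

/-- bounds at `x` in normal gauge. -/
structure BdN (h : V → V →L[ℝ] V →L[ℝ] ℝ) (m : V → Y →L[ℝ] Y →L[ℝ] ℝ)
    (S : V → Y →L[ℝ] Y →L[ℝ] Y →L[ℝ] Y →L[ℝ] ℝ) (A : V → V →L[ℝ] Y →L[ℝ] Y) (x : V) (b : ℝ) : Prop where
  one : 1 ≤ b
  hnum : ∀ X Z, |num h x X Z| ≤ b * nrm (h x) X ^ 2 * nrm (h x) Z ^ 2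
  hOm : ∀ X Z p q, |m x p (OmV A x X Z q)| ≤ b * nrm (h x) X * nrm (h x) Z * nrm (m x) p * nrm (m x) q
  hdOm : ∀ X Z p q, |m x p (DOmV h A x X X Z q)|
    ≤ b * nrm (h x) X ^ 2 * nrm (h x) Z * nrm (m x) p * nrm (m x) q
  hS0 : ∀ p q r s, |S x p q r s| ≤ b * nrm (m x) p * nrm (m x) q * nrm (m x) r * nrm (m x) s
  hS1 : ∀ X p q r s, |dS4 S x X p q r s|
    ≤ b * nrm (h x) X * nrm (m x) p * nrm (m x) q * nrm (m x) r * nrm (m x) s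
  hS2 : ∀ X p q r s, |hS4 h S x X X p q r s|
    ≤ b * nrm (h x) X ^ 2 * nrm (m x) p * nrm (m x) q * nrm (m x) r * nrm (m x) s

/-- the situation of the estimates: orthonormal `X, Z` (horizontal), `MM`-orthonormal `U, T`
(vertical), two unit vectors `(ca, sa)`, `(cb, sb)`. -/
structure Fr (h : V → V →L[ℝ] V →L[ℝ] ℝ) (m : V → Y →L[ℝ] Y →L[ℝ] ℝ)
    (S : V → Y →L[ℝ] Y →L[ℝ] Y →L[ℝ] Y →L[ℝ] ℝ) (δ b : ℝ) (x : V) (y : Y) (X Z : V) (U T : Y)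
    (ca sa cb sb : ℝ) : Prop where
  δ0 : 0 < δ
  δ1 : δ ≤ 1
  δb : δ ^ 2 * b ≤ 1 / 100
  yy : m x y y = 1
  XX : h x X X = 1
  ZZ : h x Z Z = 1
  XZ : h x X Z = 0
  yU : m x y U = 0
  yT : m x y T = 0
  UU : MM m S δ x y U U = 1
  TT : MM m S δ x y T T = 1
  UT : MM m S δ x y U T = 0
  a1 : ca ^ 2 + sa ^ 2 = 1
  b1 : cb ^ 2 + sb ^ 2 = 1

end

end Pool.Agent.Helper20.MB
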