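import Mathlib

/-!
# Submanifolds of a vector space given by smooth parametrisations

`S` is a subset of a finite dimensional vector space `A`, covered by open sets `O i` of `A`; on
`O i` there is a smooth map `f i` to `E` and on the open set `T i` of `E` a smooth map `g i` to `A`,
which are inverse to each other between `S ∩ O i` and `T i`.
-/

open Filter Metric Module Set
open scoped Topology ContDiff Manifold

set_option maxSynthPendingDepth 3

namespace Pool.Agent.Helper20.MB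

/-- Smooth parametrisations of the subset `S`. -/
structure PAtlas (A E : Type*) [NormedAddCommGroup A] [NormedSpace ℝ A] [NormedAddCommGroup E]
    [NormedSpace ℝ E] (S : Set A) (ι : Type*) where
  O : ι → Set A
  T : ι → Set E
  f : ι → A → E
  g : ι → E → A
  hO : ∀ i, IsOpen (O i)
  hT : ∀ i, IsOpen (T i)
  hf : ∀ i, ContDiffOn ℝ ∞ (f i) (O i)
  hg : ∀ i, ContDiffOn ℝ ∞ (g i) (T i)
  maps_f : ∀ i, ∀ q ∈ S, q ∈ O i → f i q ∈ T i
  maps_g : ∀ i, ∀ z ∈ T i, g i z ∈ S ∧ g i z ∈ O i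
  left : ∀ i, ∀ q ∈ S, q ∈ O i → g i (f i q) = q
  right : ∀ i, ∀ z ∈ T i, f i (g i z) = z
  idx : S → ι
  mem : ∀ p : S, (p : A) ∈ O (idx p)
  base : S

section
variable {A E : Type*} [NormedAddCommGroup A] [NormedSpace ℝ A] [NormedAddCommGroup E]
    [NormedSpace ℝ E] {S : Set A} {ι : Type*} (P : PAtlas A E S ι)

/-- The submanifold. -/
def PAtlas.Man (_P : PAtlas A E S ι) : Type _ := S

/-- The inclusion of the submanifold. -/
def PAtlas.incl (p : P.Man) : A := (show S from p).1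

instance : TopologicalSpace P.Man := inferInstanceAs (TopologicalSpace S)

lemma PAtlas.incl_mem (p : P.Man) : P.incl p ∈ S := (show S from p).2

lemma PAtlas.isEmbedding_incl : Topology.IsEmbedding P.incl := Topology.IsEmbedding.subtypeVal

/-- the point of the submanifold given by a vector. -/
def PAtlas.pt (q : A) (hq : q ∈ S) : P.Man := (⟨q, hq⟩ : S)

@[simp] lemma PAtlas.incl_pt (q : A) (hq : q ∈ S) : P.incl (P.pt q hq) = q := rfl

lemma PAtlas.incl_inj {p q : P.Man} (h : P.incl p = P.incl q) : p = q :=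
  P.isEmbedding_incl.injective h

open Classical in
/-- the inverse of the chart. -/
noncomputable def PAtlas.inv (i : ι) (z : E) : P.Man :=
  if h : z ∈ P.T i then P.pt (P.g i z) (P.maps_g i z h).1 else P.base

lemma PAtlas.incl_inv (i : ι) {z : E} (h : z ∈ P.T i) : P.incl (P.inv i z) = P.g i z := by
  rw [PAtlas.inv, dif_pos h, P.incl_pt]

/-- the charts. -/
noncomputable def PAtlas.chart (i : ι) : OpenPartialHomeomorph P.Man E where
  toFun p := P.f i (P.incl p)
  invFun := P.inv i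
  source := {p | P.incl p ∈ P.O i}
  target := P.T i
  map_source' p hp := P.maps_f i _ (P.incl_mem p) hp
  map_target' z hz := by
    show P.incl (P.inv i z) ∈ P.O i
    rw [P.incl_inv i hz]
    exact (P.maps_g i z hz).2
  left_inv' p hp := by
    apply P.incl_inj
    rw [P.incl_inv i (P.maps_f i _ (P.incl_mem p) hp), P.left i _ (P.incl_mem p) hp]
  right_inv' z hz := by
    rw [P.incl_inv i hz, P.right i z hz]
  open_source := (P.hO i).preimage P.isEmbedding_incl.continuous
  open_target := P.hT i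
  continuousOn_toFun := by
    refine (P.hf i).continuousOn.comp P.isEmbedding_incl.continuous.continuousOn ?_
    exact fun _ hp => hp
  continuousOn_invFun := by
    rw [P.isEmbedding_incl.continuousOn_iff]
    exact (P.hg i).continuousOn.congr (fun z hz => P.incl_inv i hz)

noncomputable instance : ChartedSpace E P.Man where
  atlas := range P.chart
  chartAt p := P.chart (P.idx p)
  mem_chart_source p := P.mem p
  chart_mem_atlas p := ⟨_, rfl⟩

instance : IsManifold 𝓘(ℝ, E) ∞ P.Man := by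
  apply isManifold_of_contDiffOn
  rintro e e' ⟨i, rfl⟩ ⟨j, rfl⟩
  have h1 : ContDiffOn ℝ ∞ (fun z => P.f j (P.g i z)) (P.T i ∩ {z | P.g i z ∈ P.O j}) := by
    refine (P.hf j).comp ((P.hg i).mono inter_subset_left) ?_
    intro z hz
    exact hz.2
  refine (h1.mono ?_).congr ?_
  · intro z hz
    simp only [modelWithCornersSelf_coe, range_id, inter_univ, modelWithCornersSelf_coe_symm,
      preimage_id_eq, id_eq, OpenPartialHomeomorph.trans_source, OpenPartialHomeomorph.symm_source] at hz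
    refine ⟨hz.1, ?_⟩
    have h2 : P.incl (P.inv i z) ∈ P.O j := hz.2
    rw [P.incl_inv i hz.1] at h2
    exact h2
  · intro z hz
    simp only [modelWithCornersSelf_coe, range_id, inter_univ, modelWithCornersSelf_coe_symm,
      preimage_id_eq, id_eq, OpenPartialHomeomorph.trans_source, OpenPartialHomeomorph.symm_source] at hz
    simp only [Function.comp_apply, modelWithCornersSelf_coe, modelWithCornersSelf_coe_symm, id_eq,
      OpenPartialHomeomorph.coe_trans]
    show P.f j (P.incl (P.inv i z)) = _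
    rw [P.incl_inv i hz.1]

lemma PAtlas.chartAt_eq (p : P.Man) : chartAt E p = P.chart (P.idx p) := rfl

lemma PAtlas.contMDiff_incl : ContMDiff 𝓘(ℝ, E) 𝓘(ℝ, A) ∞ P.incl := by
  intro p
  rw [contMDiffAt_iff]
  refine ⟨P.isEmbedding_incl.continuous.continuousAt, ?_⟩
  have h1 : ContDiffAt ℝ ∞ (P.g (P.idx p)) (P.f (P.idx p) (P.incl p)) :=
    (P.hg _).contDiffAt ((P.hT _).mem_nhds (P.maps_f _ _ (P.incl_mem p) (P.mem p)))
  have e : (extChartAt 𝓘(ℝ, A) (P.incl p) ∘ P.incl ∘ (extChartAt 𝓘(ℝ, E) p).symm)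
      =ᶠ[𝓝 (P.f (P.idx p) (P.incl p))] P.g (P.idx p) := by
    filter_upwards [(P.hT _).mem_nhds (P.maps_f _ _ (P.incl_mem p) (P.mem p))] with z hz
    exact P.incl_inv _ hz
  have h2 := h1.congr_of_eventuallyEq e
  exact h2.contDiffWithinAt

/-- A map to the submanifold is smooth if it is smooth as a map to the ambient space. -/
lemma PAtlas.contMDiffAt_of_incl {E' H' : Type*} [NormedAddCommGroup E'] [NormedSpace ℝ E']
    [TopologicalSpace H'] {I' : ModelWithCorners ℝ E' H'} {N : Type*} [TopologicalSpace N]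
    [ChartedSpace H' N] {φ : N → P.Man} {x : N} {n : WithTop ℕ∞} (hn : n ≤ ∞)
    (h : ContMDiffAt I' 𝓘(ℝ, A) n (fun y => P.incl (φ y)) x) : ContMDiffAt I' 𝓘(ℝ, E) n φ x := by
  have hc : ContinuousAt φ x := P.isEmbedding_incl.continuousAt_iff.2 h.continuousAt
  obtain ⟨i, hi⟩ : ∃ i, i = P.idx (φ x) := ⟨_, rfl⟩
  have hm : P.incl (φ x) ∈ P.O i := by rw [hi]; exact P.mem (φ x)
  rw [contMDiffAt_iff_target]
  refine ⟨hc, ?_⟩
  have h1 : ContMDiffAt 𝓘(ℝ, A) 𝓘(ℝ, E) n (P.f i) (P.incl (φ x)) :=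
    contMDiffAt_iff_contDiffAt.2 (((P.hf i).contDiffAt ((P.hO i).mem_nhds hm)).of_le hn)
  have h2 := h1.comp x h
  rw [hi] at h2
  exact h2

/-- The restriction of a smooth function of the ambient space. -/
lemma PAtlas.contMDiffAt_restrict {F : Type*} [NormedAddCommGroup F] [NormedSpace ℝ F] {u : A → F}
    {p : P.Man} (h : ContDiffAt ℝ ∞ u (P.incl p)) :
    ContMDiffAt 𝓘(ℝ, E) 𝓘(ℝ, F) ∞ (fun q => u (P.incl q)) p :=
  (contMDiffAt_iff_contDiffAt.2 h).comp p (P.contMDiff_incl p)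

/-- The inclusion is an immersion. -/
lemma PAtlas.mfderiv_incl_injective (p : P.Man) :
    Function.Injective (mfderiv 𝓘(ℝ, E) 𝓘(ℝ, A) P.incl p) := by
  obtain ⟨i, hi⟩ : ∃ i, i = P.idx p := ⟨_, rfl⟩
  have hm : P.incl p ∈ P.O i := by rw [hi]; exact P.mem p
  have h1 : MDifferentiableAt 𝓘(ℝ, A) 𝓘(ℝ, E) (P.f i) (P.incl p) :=
    (contMDiffAt_iff_contDiffAt.2 ((P.hf i).contDiffAt ((P.hO i).mem_nhds hm))).mdifferentiableAt (by simp)
  have h2 : MDifferentiableAt 𝓘(ℝ, E) 𝓘(ℝ, A) P.incl p := (P.contMDiff_incl p).mdifferentiableAt (by simp)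
  have h3 := mfderiv_comp (I := 𝓘(ℝ, E)) (I' := 𝓘(ℝ, A)) (I'' := 𝓘(ℝ, E)) p h1 h2
  have h4 : P.f i ∘ P.incl = extChartAt 𝓘(ℝ, E) p := by
    funext q
    rw [hi]
    rfl
  rw [h4, mfderiv_extChartAt_self] at h3
  intro u v huv
  have e1 := DFunLike.congr_fun h3 u
  have e2 := DFunLike.congr_fun h3 v
  have e3 : ∀ w : TangentSpace 𝓘(ℝ, E) p, (((mfderiv 𝓘(ℝ, A) 𝓘(ℝ, E) (P.f i) (P.incl p)).comp
      (mfderiv 𝓘(ℝ, E) 𝓘(ℝ, A) P.incl p)) w : E)
      = mfderiv 𝓘(ℝ, A) 𝓘(ℝ, E) (P.f i) (P.incl p) (mfderiv 𝓘(ℝ, E) 𝓘(ℝ, A) P.incl p w) :=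
    fun w => rfl
  have e4 := e1.trans (e3 u)
  have e5 := e2.trans (e3 v)
  rw [huv] at e4
  exact e4.trans e5.symm

end

end Pool.Agent.Helper20.MB
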