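import Pool.Agent.Helper20.MB.SphM
import Pool.Agent.Helper20.MB.Embed

/-!
# Sphere bundles inside a vector space

Reduction of the construction of a metric of positive curvature on an embedded sphere bundle to
calculations in vector spaces.
-/

open Filter Metric Module Set
open scoped Topology ContDiff RealInnerProductSpace Manifold

set_option maxSynthPendingDepth 3

namespace Pool.Agent.Helper20.MB
open Pool.Agent.Helper20.PC Pool.Agent.Helper20.HP Pool.Agent.Helper20.M8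

section
variable {A E V Y : Type*} [NormedAddCommGroup A] [NormedSpace ℝ A] [NormedAddCommGroup E]
  [NormedSpace ℝ E] [FiniteDimensional ℝ E] {S : Set A} {ι : Type*} (P : PAtlas A E S ι)
  [NormedAddCommGroup V] [NormedSpace ℝ V] [FiniteDimensional ℝ V]
  [NormedAddCommGroup Y] [NormedSpace ℝ Y] [FiniteDimensional ℝ Y]
  {J : Type*}

/-- A family of parametrisations of `S` by sphere bundle data. `D j` are the data, `φ j` the
parametrisation (with values in `A`), `ψ j` its section; `jj p` is the index used at `p`. -/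
structure Fam (S : Set A) (η : ℝ) (D : J → BD V Y) (φ : J → V × Y → A) (ψ : J → A → V × Y)
    (jj : S → J) : Prop where
  hφ : ∀ p : S, ContDiffAt ℝ ∞ (φ (jj p)) (ψ (jj p) p)
  hψ : ∀ p : S, ContDiffAt ℝ ∞ (ψ (jj p)) p
  mem : ∀ p : S, ∀ᶠ w in 𝓝 (ψ (jj p) p), φ (jj p) w ∈ S
  inv : ∀ p : S, ∀ᶠ q in 𝓝 (p : A), q ∈ S → φ (jj p) (ψ (jj p) q) = q
  rad : ∀ p : S, ∀ᶠ t : ℝ in 𝓝 1,
    φ (jj p) ((ψ (jj p) p).1, t • (ψ (jj p) p).2) = φ (jj p) (ψ (jj p) p)
  good : ∀ p : S, (D (jj p)).Good (ψ (jj p) p).1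
  unit : ∀ p : S, (D (jj p)).k (ψ (jj p) p).1 (ψ (jj p) p).2 (ψ (jj p) p).2 = 1
  pos : ∀ p : S, ∀ a, a ≠ 0 → 0 < fibL (D (jj p)).k (D (jj p)).S η (ψ (jj p) p) a a
  curv : ∀ p : S, ∀ u v : V × Y,
    (D (jj p)).k (ψ (jj p) p).1 (ψ (jj p) p).2 (u.2 + (D (jj p)).A (ψ (jj p) p).1 u.1 (ψ (jj p) p).2) = 0 →
    (D (jj p)).k (ψ (jj p) p).1 (ψ (jj p) p).2 (v.2 + (D (jj p)).A (ψ (jj p) p).1 v.1 (ψ (jj p) p).2) = 0 →
    LinearIndependent ℝ ![u, v] → 0 < num ((D (jj p)).G η) (ψ (jj p) p) u v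
  comp : ∀ p : S, ∀ᶠ w in 𝓝 (ψ (jj p) p), ∀ (q : S), (q : A) = φ (jj p) w → ∀ a b : V × Y,
    (D (jj p)).R η w a b = (D (jj q)).R η (ψ (jj q) q)
      (fderiv ℝ (ψ (jj q)) q (fderiv ℝ (φ (jj p)) w a))
      (fderiv ℝ (ψ (jj q)) q (fderiv ℝ (φ (jj p)) w b))

variable {η : ℝ} {D : J → BD V Y} {φ : J → V × Y → A} {ψ : J → A → V × Y} {jj : S → J}

/-- a point of the submanifold as a point of `S`. -/
def PAtlas.pS (p : P.Man) : S := p

lemma PAtlas.pS_val (p : P.Man) : ((P.pS p : S) : A) = P.incl p := rfl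

/-- the metric. -/
noncomputable def famInner (η : ℝ) (D : J → BD V Y) (ψ : J → A → V × Y) (jj : S → J) (p : P.Man) :
    TangentSpace 𝓘(ℝ, E) p →L[ℝ] TangentSpace 𝓘(ℝ, E) p →L[ℝ] ℝ :=
  let L : E →L[ℝ] A := mfderiv 𝓘(ℝ, E) 𝓘(ℝ, A) P.incl p
  let B : E →L[ℝ] E →L[ℝ] ℝ := (((D (jj (P.pS p))).R η (ψ (jj (P.pS p)) (P.incl p))).bilinearComp
    (fderiv ℝ (ψ (jj (P.pS p))) (P.incl p)) (fderiv ℝ (ψ (jj (P.pS p))) (P.incl p))).bilinearComp L L
  B

lemma famInner_apply (p : P.Man) (u v : E) : famInner P η D ψ jj p u v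
    = (D (jj (P.pS p))).R η (ψ (jj (P.pS p)) (P.incl p))
      (fderiv ℝ (ψ (jj (P.pS p))) (P.incl p) (mfderiv 𝓘(ℝ, E) 𝓘(ℝ, A) P.incl p u))
      (fderiv ℝ (ψ (jj (P.pS p))) (P.incl p) (mfderiv 𝓘(ℝ, E) 𝓘(ℝ, A) P.incl p v)) := rfl

open Classical in
/-- the parametrisation with values in the manifold. -/
noncomputable def famPhi (φ : J → V × Y → A) (j : J) (w : V × Y) : P.Man :=
  if h : φ j w ∈ S then P.pt (φ j w) h else P.base

lemma incl_famPhi {j : J} {w : V × Y} (h : φ j w ∈ S) : P.incl (famPhi P φ j w) = φ j w := by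
  rw [famPhi, dif_pos h, P.incl_pt]

/-- **Metrics of positive curvature on embedded sphere bundles.** -/
theorem Fam.admits (H : Fam S η D φ ψ jj) : AdmitsPositiveCurvature 𝓘(ℝ, E) P.Man := by
  refine admits_of_locPos (F := V × Y) (famInner P η D ψ jj) (fun p => ?_)
  obtain ⟨s, hs⟩ : ∃ s : S, s = P.pS p := ⟨_, rfl⟩
  have hsv : (s : A) = P.incl p := by rw [hs]; rfl
  have e0 : P.incl (famPhi P φ (jj s) (ψ (jj s) s)) = s := by
    rw [incl_famPhi P (H.mem s).self_of_nhds]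
    exact (H.inv s).self_of_nhds s.2
  have hincl : ∀ᶠ w in 𝓝 (ψ (jj s) s), P.incl (famPhi P φ (jj s) w) = φ (jj s) w :=
    (H.mem s).mono fun w hw => incl_famPhi P hw
  have hφ : ContMDiffAt 𝓘(ℝ, V × Y) 𝓘(ℝ, E) ∞ (famPhi P φ (jj s)) (ψ (jj s) s) := by
    refine P.contMDiffAt_of_incl le_rfl ?_
    refine (contMDiffAt_iff_contDiffAt.2 (H.hφ s)).congr_of_eventuallyEq ?_
    exact hincl
  have hφn : ∀ᶠ w in 𝓝 (ψ (jj s) s), ContDiffAt ℝ 1 (φ (jj s)) w :=
    ((H.hφ s).of_le (m := 1) (WithTop.coe_le_coe.2 le_top)).eventually (by norm_num)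
  refine ⟨famPhi P φ (jj s), fun q => ψ (jj s) (P.incl q), (D (jj s)).G η, (D (jj s)).bet, ?_⟩
  have hψp : (fun q => ψ (jj s) (P.incl q)) p = ψ (jj s) s := by simp only [hsv]
  refine locPos_of_bundle (D := D (jj s)) (η := η) ?_ ?_ ?_ ?_ ?_ ?_ ?_ ?_ ?_
  · simp only [hψp]; exact H.good s
  · simp only [hψp]; exact H.unit s
  · simp only [hψp]; exact H.pos s
  · simp only [hψp]; exact H.curv s
  · simp only [hψp]; exact hφ
  · exact P.contMDiffAt_restrict (by rw [← hsv]; exact H.hψ s)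
  · have h1 : ∀ᶠ q in 𝓝 p, P.incl q ∈ S → φ (jj s) (ψ (jj s) (P.incl q)) = P.incl q := by
      have := H.inv s
      rw [hsv] at this
      exact P.isEmbedding_incl.continuous.continuousAt.eventually this
    filter_upwards [h1] with q hq
    have h2 := hq (P.incl_mem q)
    apply P.incl_inj
    rw [incl_famPhi P (by rw [h2]; exact P.incl_mem q), h2]
  · simp only [hψp]
    have hc : Tendsto (fun t : ℝ => ((ψ (jj s) s).1, t • (ψ (jj s) s).2)) (𝓝 1) (𝓝 (ψ (jj s) s)) := by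
      have : Continuous (fun t : ℝ => ((ψ (jj s) s).1, t • (ψ (jj s) s).2)) := by fun_prop
      have h2 := this.tendsto 1
      rwa [one_smul] at h2
    filter_upwards [H.rad s, hc.eventually hincl] with t h1 h2
    apply P.incl_inj
    rw [h2, h1]
    exact (hincl.self_of_nhds).symm
  · simp only [hψp]
    filter_upwards [H.comp s, hincl, hφn, (H.mem s), (H.mem s).eventually_nhds] with w h1 h2 h3 h4 h5 a b
    have hw : ContMDiffAt 𝓘(ℝ, V × Y) 𝓘(ℝ, E) 1 (famPhi P φ (jj s)) w := by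
      refine P.contMDiffAt_of_incl (WithTop.coe_le_coe.2 le_top) ?_
      refine (contMDiffAt_iff_contDiffAt.2 h3).congr_of_eventuallyEq ?_
      exact h5.mono fun w' hw' => incl_famPhi P hw'
    have hd : ∀ a : V × Y, (mfderiv 𝓘(ℝ, E) 𝓘(ℝ, A) P.incl (famPhi P φ (jj s) w)
        (mfderiv 𝓘(ℝ, V × Y) 𝓘(ℝ, E) (famPhi P φ (jj s)) w a) : A) = fderiv ℝ (φ (jj s)) w a := by
      intro a
      have e1 := mfderiv_comp (I := 𝓘(ℝ, V × Y)) (I' := 𝓘(ℝ, E)) (I'' := 𝓘(ℝ, A)) w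
        ((P.contMDiff_incl (famPhi P φ (jj s) w)).mdifferentiableAt (by simp))
        (hw.mdifferentiableAt (by norm_num))
      have e2 : P.incl ∘ famPhi P φ (jj s) =ᶠ[𝓝 w] φ (jj s) :=
        h5.mono fun w' hw' => incl_famPhi P hw'
      rw [e2.mfderiv_eq, mfderiv_eq_fderiv] at e1
      exact (DFunLike.congr_fun e1 a).symm
    have h6 := h1 (P.pS (famPhi P φ (jj s) w)) h2 a b
    rw [h6]
    refine Eq.trans ?_ (famInner_apply P (famPhi P φ (jj s) w) _ _).symm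
    rw [hd, hd]
    rfl

end

end Pool.Agent.Helper20.MB
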