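import Pool.Agent.Helper20.MB.Bridge
import Pool.Agent.Helper20.MB.Fin.A7df

/-!
# General facts on the metric of a sphere bundle: the closed one-form `d log |y|`, scale invariance,
local data for the bridge theorem
-/

open Filter Metric Module Set
open scoped Topology ContDiff RealInnerProductSpace Manifold

set_option maxSynthPendingDepth 3

namespace Pool.Agent.Helper20.MB
open Pool.Agent.Helper20.PC Pool.Agent.Helper20.HP Pool.Agent.Helper20.M8

section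
variable {V Y : Type*} [NormedAddCommGroup V] [NormedSpace ℝ V]
  [NormedAddCommGroup Y] [NormedSpace ℝ Y]

/-- the form `d log |y|`. -/
noncomputable def BD.bet (D : BD V Y) (w : V × Y) : (V × Y) →L[ℝ] ℝ :=
  (D.k w.1 w.2 w.2)⁻¹ • ((D.k w.1 w.2) ∘L lamV D.A w)

lemma BD.bet_apply (D : BD V Y) (w u : V × Y) :
    D.bet w u = (D.k w.1 w.2 w.2)⁻¹ * D.k w.1 w.2 (u.2 + D.A w.1 u.1 w.2) := by
  simp [BD.bet, lamV]; ring

/-- the scale invariant part of the metric. -/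
noncomputable def BD.R (D : BD V Y) (η : ℝ) : V × Y → (V × Y) →L[ℝ] (V × Y) →L[ℝ] ℝ :=
  redG (D.G η) D.bet

lemma BD.R_apply (D : BD V Y) (η : ℝ) (w u v : V × Y) (hk : D.k w.1 w.2 w.2 ≠ 0) :
    D.R η w u v = D.h w.1 u.1 v.1
      + η ^ 2 * ((D.k w.1 w.2 w.2)⁻¹ * D.k w.1 (u.2 + D.A w.1 u.1 w.2) (v.2 + D.A w.1 v.1 w.2)
        - ((D.k w.1 w.2 w.2)⁻¹) ^ 2 * (D.k w.1 w.2 (u.2 + D.A w.1 u.1 w.2)
          * D.k w.1 w.2 (v.2 + D.A w.1 v.1 w.2)))
      - η ^ 4 * (((D.k w.1 w.2 w.2)⁻¹) ^ 2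
        * D.S w.1 w.2 (u.2 + D.A w.1 u.1 w.2) w.2 (v.2 + D.A w.1 v.1 w.2)) := by
  rw [BD.R, redG, BD.G, SB]
  simp only [_root_.sub_apply, nMet_apply, fibL_apply, ContinuousLinearMap.smulRight_apply,
    BD.bet_apply, lamV_apply, _root_.smul_apply, smul_eq_mul]
  field_simp
  ring

/-- **Scale invariance.** -/
lemma BD.R_scale (D : BD V Y) (η : ℝ) {x : V} {y : Y} (u u' : V) (p p' : Y) {s : ℝ} (t t' : ℝ) (hs : s ≠ 0)
    (hk : D.k x y y ≠ 0) (ksymm : ∀ a b, D.k x a b = D.k x b a)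
    (S1 : ∀ a b c d, D.S x a b c d = - D.S x b a c d)
    (S2 : ∀ a b c d, D.S x a b c d = D.S x c d a b) :
    D.R η (x, s • y) (u, s • p + t • y) (u', s • p' + t' • y) = D.R η (x, y) (u, p) (u', p') := by
  have Syy : ∀ c d, D.S x y y c d = 0 := by
    intro c d
    have := S1 y y c d
    linarith
  have Syy' : ∀ c d, D.S x c d y y = 0 := by
    intro c d
    rw [S2]; exact Syy c d
  rw [BD.R_apply, BD.R_apply]
  · have e : ∀ (u : V) (p : Y) (t : ℝ), s • p + t • y + D.A x u (s • y)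
        = s • (p + D.A x u y) + t • y := by
      intro u p t
      rw [map_smul]; module
    simp only [e]
    simp only [map_smul, map_add, _root_.smul_apply, _root_.add_apply, smul_eq_mul, Syy, Syy']
    rw [ksymm (D.A x u y) y, ksymm p y]
    field_simp
    ring
  · exact hk
  · simp only [map_smul, _root_.smul_apply, smul_eq_mul]
    simp [hs, hk]

variable [FiniteDimensional ℝ V] [FiniteDimensional ℝ Y] {D : BD V Y} {x : V} {y : Y}

lemma contDiffAt_kyy (H : D.Good x) : ContDiffAt ℝ ∞ (fun w : V × Y => D.k w.1 w.2 w.2) (x, y) := by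
  have m' : ContDiffAt ℝ ∞ (fun w : V × Y => D.k w.1) (x, y) := H.hk.comp (x, y) contDiffAt_fst
  exact (m'.clm_apply contDiffAt_snd).clm_apply contDiffAt_snd

lemma contDiffAt_bet (H : D.Good x) (hy : y ≠ 0) : ContDiffAt ℝ ∞ D.bet (x, y) := by
  have hky : D.k x y y ≠ 0 := (H.kpos.self_of_nhds y hy).ne'
  refine contDiffAt_of_apply (fun u => ?_)
  simp only [BD.bet_apply]
  have m' : ContDiffAt ℝ ∞ (fun w : V × Y => D.k w.1) (x, y) := H.hk.comp (x, y) contDiffAt_fst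
  have a' : ContDiffAt ℝ ∞ (fun w : V × Y => D.A w.1) (x, y) := H.hA.comp (x, y) contDiffAt_fst
  have my : ContDiffAt ℝ ∞ (fun w : V × Y => D.k w.1 w.2) (x, y) := m'.clm_apply contDiffAt_snd
  exact ((contDiffAt_kyy H).inv hky).mul (my.clm_apply (contDiffAt_const.add
    ((a'.clm_apply contDiffAt_const).clm_apply contDiffAt_snd)))

/-- near `(x, y)`, `bet` is the differential of `(1/2) log k(y,y)`. -/
lemma bet_eq (H : D.Good x) (hy : y ≠ 0) : ∀ᶠ w in 𝓝 (x, y),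
    D.bet w = fderiv ℝ (fun w : V × Y => (1/2 : ℝ) * Real.log (D.k w.1 w.2 w.2)) w := by
  have cf : Tendsto (fun w : V × Y => w.1) (𝓝 (x, y)) (𝓝 x) := continuous_fst.tendsto (x, y)
  have hk1 : ∀ᶠ x' in 𝓝 x, ContDiffAt ℝ 1 D.k x' :=
    (H.hk.of_le (m := 1) (WithTop.coe_le_coe.2 le_top)).eventually (by norm_num)
  have hy1 : ∀ᶠ w : V × Y in 𝓝 (x, y), w.2 ≠ 0 := continuous_snd.continuousAt.eventually_ne hy
  filter_upwards [cf.eventually hk1, cf.eventually H.kpos, cf.eventually H.ksymm,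
    cf.eventually H.kpar, hy1] with w h1 h2 h3 h4 h5
  have hky : D.k w.1 w.2 w.2 ≠ 0 := (h2 w.2 h5).ne'
  have d1 : HasFDerivAt (fun w' : V × Y => D.k w'.1) ((fderiv ℝ D.k w.1) ∘L ContinuousLinearMap.fst ℝ V Y) w :=
    (h1.differentiableAt (by norm_num)).hasFDerivAt.comp w hasFDerivAt_fst
  have d2 : HasFDerivAt (fun w' : V × Y => w'.2) (ContinuousLinearMap.snd ℝ V Y) w := hasFDerivAt_snd
  have d3 := ((d1.clm_apply d2).clm_apply d2).log hky
  have d4 := d3.const_mul (1/2 : ℝ)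
  rw [d4.fderiv]
  ext u
  · simp only [BD.bet_apply, ContinuousLinearMap.comp_apply, ContinuousLinearMap.inl_apply]
    have := h4 u w.2 w.2
    simp [this, h3 (D.A w.1 u w.2) w.2]
    ring
  · simp only [BD.bet_apply, ContinuousLinearMap.comp_apply, ContinuousLinearMap.inr_apply]
    simp [h3 u w.2]
    ring

/-- `bet` is closed. -/
lemma bet_closed (H : D.Good x) (hy : y ≠ 0) (a b : V × Y) :
    fderiv ℝ D.bet (x, y) a b = fderiv ℝ D.bet (x, y) b a := by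
  have hky : D.k x y y ≠ 0 := (H.kpos.self_of_nhds y hy).ne'
  have e : D.bet =ᶠ[𝓝 (x, y)] fderiv ℝ (fun w : V × Y => (1/2 : ℝ) * Real.log (D.k w.1 w.2 w.2)) :=
    bet_eq H hy
  rw [e.fderiv_eq]
  have hc : ContDiffAt ℝ ∞ (fun w : V × Y => (1/2 : ℝ) * Real.log (D.k w.1 w.2 w.2)) (x, y) :=
    contDiffAt_const.mul ((contDiffAt_kyy H).log hky)
  exact (hc.isSymmSndFDerivAt (by
    rw [minSmoothness_of_isRCLikeNormedField]; exact WithTop.coe_le_coe.2 le_top)).eq a b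

lemma contDiffAt_G (H : D.Good x) (hy : y ≠ 0) (η : ℝ) : ContDiffAt ℝ ∞ (D.G η) (x, y) := by
  have hky : D.k x y y ≠ 0 := (H.kpos.self_of_nhds y hy).ne'
  have m' : ContDiffAt ℝ ∞ (fun w : V × Y => D.k w.1) (x, y) := H.hk.comp (x, y) contDiffAt_fst
  have S' : ContDiffAt ℝ ∞ (fun w : V × Y => D.S w.1) (x, y) := H.hS.comp (x, y) contDiffAt_fst
  have h' : ContDiffAt ℝ ∞ (fun w : V × Y => D.h w.1) (x, y) := H.hh.comp (x, y) contDiffAt_fst
  have hl : ContDiffAt ℝ ∞ (lamV D.A) (x, y) := contDiffAt_lamV (z := (x, y)) H.hA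
  have my : ContDiffAt ℝ ∞ (fun w : V × Y => D.k w.1 w.2) (x, y) := m'.clm_apply contDiffAt_snd
  have myy := contDiffAt_kyy (y := y) H
  have hF : ContDiffAt ℝ ∞ (fibL D.k D.S η) (x, y) := by
    refine contDiffAt_of_apply (fun a => contDiffAt_of_apply (fun b => ?_))
    simp only [fibL_apply]
    have mya : ∀ a, ContDiffAt ℝ ∞ (fun w : V × Y => D.k w.1 w.2 a) (x, y) :=
      fun a => my.clm_apply contDiffAt_const
    have mab : ContDiffAt ℝ ∞ (fun w : V × Y => D.k w.1 a b) (x, y) :=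
      (m'.clm_apply contDiffAt_const).clm_apply contDiffAt_const
    have Sy : ContDiffAt ℝ ∞ (fun w : V × Y => D.S w.1 w.2 a w.2 b) (x, y) :=
      (((S'.clm_apply contDiffAt_snd).clm_apply contDiffAt_const).clm_apply contDiffAt_snd).clm_apply
        contDiffAt_const
    exact ((myy.pow 2).inv (pow_ne_zero 2 hky)).mul (((contDiffAt_const.mul ((mya a).mul (mya b))).add
      ((contDiffAt_const.mul myy).mul mab)).sub (contDiffAt_const.mul Sy))
  rw [BD.G, SB]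
  unfold nMet
  exact (contDiffAt_bilinearComp h' contDiffAt_const).add (contDiffAt_bilinearComp hF hl)

/-- a vector transported by the radial scaling. -/
lemma bet_radial (hy : D.k x y y ≠ 0) : D.bet (x, y) (0, y) = 1 := by
  rw [BD.bet_apply]
  simp [hy]

end

section
variable {V Y : Type*} [NormedAddCommGroup V] [NormedSpace ℝ V] [FiniteDimensional ℝ V]
  [NormedAddCommGroup Y] [NormedSpace ℝ Y] [FiniteDimensional ℝ Y] {D : BD V Y}
  {E : Type*} [NormedAddCommGroup E] [NormedSpace ℝ E] [FiniteDimensional ℝ E]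
  {H : Type*} [TopologicalSpace H] {I : ModelWithCorners ℝ E H} [I.Boundaryless]
  {M : Type*} [TopologicalSpace M] [ChartedSpace H M] [IsManifold I ∞ M]
  {inner : ∀ p : M, TangentSpace I p →L[ℝ] TangentSpace I p →L[ℝ] ℝ} {p : M}
  {φ : V × Y → M} {ψ : M → V × Y} {η : ℝ}

/-- **Local data of a sphere bundle.** -/
theorem locPos_of_bundle (hD : D.Good (ψ p).1) (hy : D.k (ψ p).1 (ψ p).2 (ψ p).2 = 1)
    (hpos : ∀ a, a ≠ 0 → 0 < fibL D.k D.S η (ψ p) a a)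
    (hcurv : ∀ u v : V × Y, D.k (ψ p).1 (ψ p).2 (u.2 + D.A (ψ p).1 u.1 (ψ p).2) = 0 →
      D.k (ψ p).1 (ψ p).2 (v.2 + D.A (ψ p).1 v.1 (ψ p).2) = 0 → LinearIndependent ℝ ![u, v] →
      0 < num (D.G η) (ψ p) u v)
    (hφ : ContMDiffAt 𝓘(ℝ, V × Y) I ∞ φ (ψ p)) (hψ : ContMDiffAt I 𝓘(ℝ, V × Y) ∞ ψ p)
    (inv : ∀ᶠ q in 𝓝 p, φ (ψ q) = q)
    (hrad : ∀ᶠ t : ℝ in 𝓝 1, φ ((ψ p).1, t • (ψ p).2) = φ (ψ p))
    (hinner : ∀ᶠ w in 𝓝 (ψ p), ∀ a b : V × Y, D.R η w a b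
      = inner (φ w) (mfderiv 𝓘(ℝ, V × Y) I φ w a) (mfderiv 𝓘(ℝ, V × Y) I φ w b)) :
    LocPos I inner p φ ψ (D.G η) D.bet := by
  have hy0 : (ψ p).2 ≠ 0 := by
    intro h
    rw [h] at hy
    simp at hy
  have hmet : MetAt (D.G η) ((ψ p).1, (ψ p).2) := Spec.metAt_G hD hy0 hpos
  refine ⟨hφ, hψ, inv, contDiffAt_G hD hy0 η, hmet.symm, hmet.pos, contDiffAt_bet hD hy0,
    bet_closed hD hy0, ?_, ⟨((0 : V), (ψ p).2), ?_, ?_⟩, ?_⟩
  · filter_upwards [hinner] with w hw a b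
    rw [← hw, BD.R, redG_apply]
    ring
  · -- the radial vector is in the kernel of `dφ`
    obtain ⟨c, hc⟩ : ∃ c : ℝ → V × Y, c = fun t => ((ψ p).1, t • (ψ p).2) := ⟨_, rfl⟩
    have hc1 : c 1 = ψ p := by rw [hc]; simp
    have hcd' : HasFDerivAt c (ContinuousLinearMap.toSpanSingleton ℝ ((0 : V), (ψ p).2)) 1 := by
      rw [hc]
      have e1 : HasDerivAt (fun t : ℝ => t • (ψ p).2) ((1 : ℝ) • (ψ p).2) 1 :=
        (hasDerivAt_id (1 : ℝ)).smul_const (ψ p).2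
      have := ((hasDerivAt_const (1 : ℝ) (ψ p).1).prodMk e1).hasFDerivAt
      simpa using this
    obtain ⟨L, hL⟩ : ∃ L : (V × Y) →L[ℝ] E, L = mfderiv 𝓘(ℝ, V × Y) I φ (ψ p) := ⟨_, rfl⟩
    have h1 : HasMFDerivAt 𝓘(ℝ, V × Y) I φ (c 1) L := by
      rw [hc1, hL]
      exact (hφ.mdifferentiableAt (by simp)).hasMFDerivAt
    have h2 : HasMFDerivAt 𝓘(ℝ, ℝ) I (φ ∘ c) 1
        (L ∘L (ContinuousLinearMap.toSpanSingleton ℝ ((0 : V), (ψ p).2))) :=
      h1.comp 1 hcd'.hasMFDerivAt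
    have h3 : HasMFDerivAt 𝓘(ℝ, ℝ) I (φ ∘ c) 1 (0 : ℝ →L[ℝ] E) := by
      have e : φ ∘ c =ᶠ[𝓝 1] fun _ => φ (c 1) := by
        filter_upwards [hrad] with t ht
        rw [Function.comp_apply, hc1, ← ht, hc]
      have h5 : HasMFDerivAt 𝓘(ℝ, ℝ) I (fun _ : ℝ => φ (c 1)) 1 (0 : ℝ →L[ℝ] E) :=
        hasMFDerivAt_const (I := 𝓘(ℝ, ℝ)) (I' := I) (φ (c 1)) (1 : ℝ)
      exact h5.congr_of_eventuallyEq e
    have h4 := hasMFDerivAt_unique h2 h3
    have h5 : (L ∘L (ContinuousLinearMap.toSpanSingleton ℝ ((0 : V), (ψ p).2))) (1 : ℝ)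
        = (0 : ℝ →L[ℝ] E) (1 : ℝ) := DFunLike.congr_fun h4 (1 : ℝ)
    rw [ContinuousLinearMap.comp_apply, ContinuousLinearMap.toSpanSingleton_apply, one_smul] at h5
    rw [← hL]
    exact h5
  · have : D.bet ((ψ p).1, (ψ p).2) (0, (ψ p).2) = 1 := bet_radial (by rw [hy]; norm_num)
    rw [show ψ p = ((ψ p).1, (ψ p).2) from rfl, this]
    norm_num
  · intro u v hu hv huv
    rw [BD.bet_apply, hy] at hu hv
    exact hcurv u v (by simpa using hu) (by simpa using hv) huv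

end

end Pool.Agent.Helper20.MB
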